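import Pool.Agent.Helper11.EP.M_EZ1
import Pool.Agent.Helper12.EP.M_CCR
import Pool.Agent.Helper12.EP.M_ECO
import Pool.Agent.Helper13.EP.M_CEX
import Pool.Agent.Helper15.EP.M_ECS
import Pool.Agent.Helper15.EP.M_LMI
import Pool.Agent.Helper15.EP.M_XVM
import Pool.Agent.Helper16.EP.M_ETG
import Pool.Agent.Helper18.EP.M_CON
import Pool.Agent.Helper2.EP.M_EFB
import Pool.Agent.Helper2.EP.M_EVF
import Pool.Agent.Helper21.EP.M_EN2
import Pool.Agent.Helper24.EP.M_EZ3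
import Pool.Agent.Helper26.EP.M_CNB
import Pool.Agent.Helper26.EP.M_EAP
import Pool.Agent.Helper26.EP.M_LX2
import Pool.Agent.Helper27.EP.M_CNC
import Pool.Agent.Helper27.EP.M_CND
import Pool.Agent.Helper27.EP.M_LPR
import Pool.Agent.Helper27.EP.M_LX3
import Pool.Agent.Helper29.EP.M_EM2
import Pool.Agent.Helper29.EP.M_EV0
import Pool.Agent.Helper29.EP.M_GPG
import Pool.Agent.Helper3.EP.M_LDM
import Pool.Agent.Helper30.EP.M_XGA
import Pool.Agent.Helper33.EP.M_LZF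
import Pool.Agent.Helper34.EP.M_XS
import Pool.Agent.Helper37.EP.M_LDI
import Pool.Agent.Helper38.EP.M_EZC
import Pool.Agent.Helper39.EP.M_EZM
import Pool.Agent.Helper39.EP.M_XT
import Pool.Agent.Helper4.EP.M_XH
import Pool.Agent.Helper40.EP.M_EZK
import Pool.Agent.Helper41.EP.M_FA
import Pool.Agent.Helper42.EP.M_EN1
import Pool.Agent.Helper42.EP.M_FM
import Pool.Agent.Helper45.EP.M_LCB
import Pool.Agent.Helper45.EP.M_LSQ
import Pool.Agent.Helper47.EP.M_CFB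
import Pool.Agent.Helper47.EP.M_LOA
import Pool.Agent.Helper51.EP.M_CCT
import Pool.Agent.Helper51.EP.M_ECR
import Pool.Agent.Helper52.EP.M_CPP
import Pool.Agent.Helper52.EP.M_EPA
import Pool.Agent.Helper57.EP.M_EAT
import Pool.Agent.Helper57.EP.M_XP
import Pool.Agent.Helper60.EP.M_CCS
import Pool.Agent.Helper60.EP.M_EQ
import Pool.Agent.Helper62.EP.M_EM1
import Pool.Agent.Helper62.EP.M_LGO
import Pool.Agent.Helper62.EP.M_XL
import Pool.Agent.Helper64.EP.M_XC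
import Pool.Agent.Helper76.EP.M_EM5
import Pool.Agent.Helper76.EP.M_XB1
import Pool.Agent.Helper78.EP.M_EBS
import Pool.Agent.Helper78.EP.M_EPB
import Pool.Agent.Helper78.EP.M_XHI
import Pool.Agent.Helper79.EP.M_CNW
import Pool.Agent.Helper79.EP.M_EEN
import Pool.Agent.Helper79.EP.M_EM4
import Pool.Agent.Helper8.EP.M_CNA
import Pool.Agent.Helper8.EP.M_EM3
import Pool.Agent.Helper80.EP.M_EF1
import Pool.Agent.Helper80.EP.M_XW
import Pool.Agent.Helper81.EP.M_LXC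
import Pool.Agent.Helper84.EP.M_EME
import Pool.Agent.Helper84.EP.M_XB2
import Pool.Agent.Helper89.EP.M_ETY
import Pool.Agent.Helper90.EP.M_FZ
import Pool.Agent.Helper91.EP.M_CYO
import Pool.Agent.Helper91.EP.M_EZ2
import Pool.Agent.Helper91.EP.M_LM1
import Pool.Agent.Helper91.EP.M_LM2
import Pool.Agent.Helper92.EP.M_XEN
import Pool.Agent.Helper93.EP.M_LPL
import Pool.Agent.Helper98.EP.M_ECQ
import Pool.Agent.Helper98.EP.M_SY
import Pool.Agent.Helper20.RL.Asm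

/-!
# Project EP (MP_cb927e_an): assembly
-/

set_option autoImplicit false

namespace Pool.Agent.Helper68.EP

theorem pEQ : Pool.Agent.Helper68.EP.StEQ :=
  Pool.Agent.Helper60.EP.hEQ Pool.Agent.Helper20.RG.pPT Pool.Agent.Helper20.RL.pLGR

theorem pEFB : Pool.Agent.Helper68.EP.StEFB :=
  Pool.Agent.Helper2.EP.hEFB pEQ

theorem pEVF : Pool.Agent.Helper68.EP.StEVF :=
  Pool.Agent.Helper2.EP.hEVF Pool.Agent.Helper20.RL.pLGR Pool.Agent.Helper20.RL.pLFM pEFB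

theorem pECS : Pool.Agent.Helper68.EP.StECS :=
  Pool.Agent.Helper15.EP.hECS Pool.Agent.Helper20.RL.pLGR

theorem pETG : Pool.Agent.Helper68.EP.StETG :=
  Pool.Agent.Helper16.EP.hETG Pool.Agent.Helper20.RL.pLGR Pool.Agent.Helper20.RL.pLMX Pool.Agent.Helper20.RL.pLFM

theorem pEME : Pool.Agent.Helper68.EP.StEME :=
  Pool.Agent.Helper84.EP.hEME Pool.Agent.Helper20.RL.pLFM pEQ pEFB pEVF

theorem pETY : Pool.Agent.Helper68.EP.StETY :=
  Pool.Agent.Helper89.EP.hETY pEVF pECS pETG pEFB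

theorem pEF1 : Pool.Agent.Helper68.EP.StEF1 :=
  Pool.Agent.Helper80.EP.hEF1 pEQ pEFB pEVF

theorem pECO : Pool.Agent.Helper68.EP.StECO :=
  Pool.Agent.Helper12.EP.hECO Pool.Agent.Helper20.RG.pPT Pool.Agent.Helper20.RL.pLGR

theorem pECR : Pool.Agent.Helper68.EP.StECR :=
  Pool.Agent.Helper51.EP.hECR Pool.Agent.Helper20.RG.pPT Pool.Agent.Helper20.RG.pPAR pECO

theorem pECQ : Pool.Agent.Helper68.EP.StECQ :=
  Pool.Agent.Helper98.EP.hECQ Pool.Agent.Helper20.RL.pLGR pEFB pECR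

theorem pEEN : Pool.Agent.Helper68.EP.StEEN :=
  Pool.Agent.Helper79.EP.hEEN pEFB pEF1

theorem pEPA : Pool.Agent.Helper68.EP.StEPA :=
  Pool.Agent.Helper52.EP.hEPA pEFB pEVF pECS pEF1 pECQ pEEN Pool.Agent.Helper20.RL.pLGR

theorem pEAT : Pool.Agent.Helper68.EP.StEAT :=
  Pool.Agent.Helper57.EP.hEAT Pool.Agent.Helper20.RG.pPT Pool.Agent.Helper20.RL.pLMX pEQ

theorem pEM1 : Pool.Agent.Helper68.EP.StEM1 :=
  Pool.Agent.Helper62.EP.hEM1 pEFB pEVF pEF1 pECQ pEEN pEME Pool.Agent.Helper20.RL.pLGR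

theorem pEM2 : Pool.Agent.Helper68.EP.StEM2 :=
  Pool.Agent.Helper29.EP.hEM2 pEFB pEF1

theorem pEM3 : Pool.Agent.Helper68.EP.StEM3 :=
  Pool.Agent.Helper8.EP.hEM3 Pool.Agent.Helper20.RG.pPT Pool.Agent.Helper20.RL.pLGR pEQ

theorem pEM4 : Pool.Agent.Helper68.EP.StEM4 :=
  Pool.Agent.Helper79.EP.hEM4 Pool.Agent.Helper20.RL.pLGR pEFB pEVF

theorem pEM5 : Pool.Agent.Helper68.EP.StEM5 :=
  Pool.Agent.Helper76.EP.hEM5 Pool.Agent.Helper20.RG.pPT Pool.Agent.Helper20.RL.pLGR pEFB pEVF pECS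

theorem pEPB : Pool.Agent.Helper68.EP.StEPB :=
  Pool.Agent.Helper78.EP.hEPB pEFB pEVF pECS pEME pEM1 pEM2 pEM3 pEM4 pEM5 Pool.Agent.Helper20.RL.pLGR

theorem pEV0 : Pool.Agent.Helper68.EP.StEV0 :=
  Pool.Agent.Helper29.EP.hEV0 pEVF pETY pEF1 pEFB

theorem pEZC : Pool.Agent.Helper68.EP.StEZC :=
  Pool.Agent.Helper38.EP.hEZC pEFB pEF1

theorem pEZK : Pool.Agent.Helper68.EP.StEZK :=
  Pool.Agent.Helper40.EP.hEZK 

theorem pEAP : Pool.Agent.Helper68.EP.StEAP :=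
  Pool.Agent.Helper26.EP.hEAP pEVF pEME pETY pEF1

theorem pEZM : Pool.Agent.Helper68.EP.StEZM :=
  Pool.Agent.Helper39.EP.hEZM pEME pETY pEZC pEZK

theorem pEN1 : Pool.Agent.Helper68.EP.StEN1 :=
  Pool.Agent.Helper42.EP.hEN1 

theorem pEN2 : Pool.Agent.Helper68.EP.StEN2 :=
  Pool.Agent.Helper21.EP.hEN2 

theorem pEZ1 : Pool.Agent.Helper68.EP.StEZ1 :=
  Pool.Agent.Helper11.EP.hEZ1 pEVF pEPA pEV0 pEAP pEZM pEN1 pEN2

theorem pEBS : Pool.Agent.Helper68.EP.StEBS :=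
  Pool.Agent.Helper78.EP.hEBS pEVF pEPA pEAT pEPB pEME pEN1 pEN2

theorem pEZ2 : Pool.Agent.Helper68.EP.StEZ2 :=
  Pool.Agent.Helper91.EP.hEZ2 pEV0 pEAP pEZM pEN1 pEZ1 pEBS

theorem pEZ3 : Pool.Agent.Helper68.EP.StEZ3 :=
  Pool.Agent.Helper24.EP.hEZ3 pEVF pEAP pEZM pEN1 pEZ1 pEBS pEZ2

theorem pXEN : Pool.Agent.Helper68.EP.StXEN :=
  Pool.Agent.Helper92.EP.hXEN Pool.Agent.Helper20.RG.pPT Pool.Agent.Helper20.RL.pLGR Pool.Agent.Helper20.RL.pLGE pEVF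

theorem pXW : Pool.Agent.Helper68.EP.StXW :=
  Pool.Agent.Helper80.EP.hXW Pool.Agent.Helper20.RG.pPT

theorem pXL : Pool.Agent.Helper68.EP.StXL :=
  Pool.Agent.Helper62.EP.XL.hXL pEQ pEFB pEVF pETG pXW Pool.Agent.Helper20.RL.pLGR

theorem pXVM : Pool.Agent.Helper68.EP.StXVM :=
  Pool.Agent.Helper15.EP.hXVM pEFB

theorem pXB1 : Pool.Agent.Helper68.EP.StXB1 :=
  Pool.Agent.Helper76.EP.hXB1 Pool.Agent.Helper20.RG.pPT Pool.Agent.Helper20.RL.pLGR pEFB pEVF pECR pXL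

theorem pXB2 : Pool.Agent.Helper68.EP.StXB2 :=
  Pool.Agent.Helper84.EP.hXB2 pEN1 pXB1

theorem pXGA : Pool.Agent.Helper68.EP.StXGA :=
  Pool.Agent.Helper30.EP.hXGA pEVF

theorem pXC : Pool.Agent.Helper68.EP.StXC :=
  Pool.Agent.Helper64.EP.hXC 

theorem pXT : Pool.Agent.Helper68.EP.StXT :=
  Pool.Agent.Helper39.EP.hXT pEVF pEN1 pXEN pXL pXVM pXB2 pXGA pXC

theorem pXS : Pool.Agent.Helper68.EP.StXS :=
  Pool.Agent.Helper34.EP.hXS pEZ2 pEZ3 pXT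

theorem pXP : Pool.Agent.Helper68.EP.StXP :=
  Pool.Agent.Helper57.EP.hXP 

theorem pXH : Pool.Agent.Helper68.EP.StXH :=
  Pool.Agent.Helper4.EP.hXH Pool.Agent.Helper20.RL.pLGY pEFB pEVF pXW

theorem pXHI : Pool.Agent.Helper68.EP.StXHI :=
  Pool.Agent.Helper78.EP.hXHI Pool.Agent.Helper20.RG.pYB pEN1 pXS pXP pXH pEFB

theorem pGPG : Pool.Agent.Helper68.EP.StGPG :=
  Pool.Agent.Helper29.EP.hGPG 

theorem pSY : Pool.Agent.Helper68.EP.StSY :=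
  Pool.Agent.Helper98.EP.hSY Pool.Agent.Helper20.RG.pMM pGPG

theorem pCPP : Pool.Agent.Helper68.EP.StCPP :=
  Pool.Agent.Helper52.EP.hCPP 

theorem pCEX : Pool.Agent.Helper61.EP.StCEX :=
  Pool.Agent.Helper13.EP.hCEX 

theorem pCNA : Pool.Agent.Helper61.EP.StCNA :=
  Pool.Agent.Helper8.EP.hCNA 

theorem pCNB : Pool.Agent.Helper61.EP.StCNB :=
  Pool.Agent.Helper26.EP.hCNB 

theorem pCNW : Pool.Agent.Helper61.EP.StCNW :=
  Pool.Agent.Helper79.EP.hCNW 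

theorem pCNC : Pool.Agent.Helper61.EP.StCNC :=
  Pool.Agent.Helper27.EP.hCNC pCNW

theorem pCND : Pool.Agent.Helper61.EP.StCND :=
  Pool.Agent.Helper27.EP.hCND pCNW

theorem pCCT : Pool.Agent.Helper61.EP.StCCT :=
  Pool.Agent.Helper51.EP.hCCT Pool.Agent.Helper20.RL.pLLM Pool.Agent.Helper20.RL.pPCI Pool.Agent.Helper20.RL.pLPA Pool.Agent.Helper20.RL.pPPB Pool.Agent.Helper20.RL.pLXM Pool.Agent.Helper20.RL.pPXR pCNA pCNB pCNC pCND

theorem pCCR : Pool.Agent.Helper61.EP.StCCR :=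
  Pool.Agent.Helper12.EP.hCCR Pool.Agent.Helper20.RG.pYB Pool.Agent.Helper20.RL.pLGY Pool.Agent.Helper20.RL.pLPG pCCT

theorem pCCS : Pool.Agent.Helper61.EP.StCCS :=
  Pool.Agent.Helper60.EP.hCCS Pool.Agent.Helper20.RL.pLRS pCCR

theorem pCON : Pool.Agent.Helper61.EP.StCON :=
  Pool.Agent.Helper18.EP.hCON Pool.Agent.Helper20.RG.pYB Pool.Agent.Helper20.RL.pLAM Pool.Agent.Helper20.RL.pLAP pCCS

theorem pCFB : Pool.Agent.Helper61.EP.StCFB :=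
  Pool.Agent.Helper47.EP.hCFB Pool.Agent.Helper20.RG.pPT Pool.Agent.Helper20.RG.pMEA Pool.Agent.Helper20.RG.pYB Pool.Agent.Helper20.RL.pLAM

theorem pCYO : Pool.Agent.Helper61.EP.StCYO :=
  Pool.Agent.Helper91.EP.hCYO Pool.Agent.Helper20.RG.pYB Pool.Agent.Helper20.RL.pLAM pCFB pCCS

theorem pLM1 : Pool.Agent.Helper61.EPL.StLM1 :=
  Pool.Agent.Helper91.EPL.hLM1 Pool.Agent.Helper20.RG.pPT Pool.Agent.Helper20.RG.pMB Pool.Agent.Helper20.RG.pMM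

theorem pLM2 : Pool.Agent.Helper61.EPL.StLM2 :=
  Pool.Agent.Helper91.EPL.hLM2 Pool.Agent.Helper20.RG.pMB Pool.Agent.Helper20.RG.pMM Pool.Agent.Helper20.RG.pSYS Pool.Agent.Helper20.RG.pU1 Pool.Agent.Helper20.RG.pOCT pLM1

theorem pLMI : Pool.Agent.Helper61.EPL.StLMI :=
  Pool.Agent.Helper15.EPL.hLMI pGPG pLM2

theorem pLPR : Pool.Agent.Helper61.EPL.StLPR :=
  Pool.Agent.Helper27.EP.hLPR 

theorem pLSQ : Pool.Agent.Helper61.EPL.StLSQ :=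
  Pool.Agent.Helper45.EPL.hLSQ 

theorem pLZF : Pool.Agent.Helper61.EPL.StLZF :=
  Pool.Agent.Helper33.EPL.hLZF Pool.Agent.Helper20.RG.pPT Pool.Agent.Helper20.RG.pMEA Pool.Agent.Helper20.RG.pYB

theorem pLPL : Pool.Agent.Helper61.EPL.StLPL :=
  Pool.Agent.Helper93.EPL.hLPL pLMI pLPR pLSQ pLZF

theorem pLX3 : Pool.Agent.Helper61.EPL.StLX3 :=
  Pool.Agent.Helper27.EP.hLX3 pLZF pLPL

theorem pLX2 : Pool.Agent.Helper61.EPL.StLX2 :=
  Pool.Agent.Helper26.EPL.hLX2 Pool.Agent.Helper20.RG.pYB Pool.Agent.Helper20.RL.pPER pLSQ pLZF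

theorem pLGO : Pool.Agent.Helper61.EPL.StLGO :=
  Pool.Agent.Helper62.EPL.hLGO Pool.Agent.Helper20.RG.pMM Pool.Agent.Helper20.RG.pSYS Pool.Agent.Helper20.RG.pGD Pool.Agent.Helper20.RG.pHLY pLZF

theorem pLXC : Pool.Agent.Helper61.EPL.StLXC :=
  Pool.Agent.Helper81.EPL.hLXC Pool.Agent.Helper20.RG.pMM Pool.Agent.Helper20.RG.pSYS pCON pCYO pLSQ

theorem pLDI : Pool.Agent.Helper61.EPL.StLDI :=
  Pool.Agent.Helper37.EPL.hLDI Pool.Agent.Helper20.RG.pPT Pool.Agent.Helper20.RG.pMM Pool.Agent.Helper20.RG.pLEB Pool.Agent.Helper20.RG.pDO1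

theorem pLDM : Pool.Agent.Helper61.EPL.StLDM :=
  Pool.Agent.Helper3.EPL.hLDM Pool.Agent.Helper20.RG.pPT Pool.Agent.Helper20.RG.pYB pLZF pLDI

theorem pLCB : Pool.Agent.Helper61.EPL.StLCB :=
  Pool.Agent.Helper45.EPL.hLCB Pool.Agent.Helper20.RG.pYB pEFB

theorem pLOA : Pool.Agent.Helper61.EPL.StLOA :=
  Pool.Agent.Helper47.EPL.hLOA pGPG pSY pCEX pLXC pLCB pLGO pLX2 pLX3 pLDM

theorem pLO : Pool.Agent.Helper68.EP.StLO := pLOA

theorem pFA : Pool.Agent.Helper68.EP.StFA :=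
  Pool.Agent.Helper41.EP.hFA Pool.Agent.Helper20.RG.pYB pXHI pLO

theorem pFM : Pool.Agent.Helper68.EP.StFM :=
  Pool.Agent.Helper42.EP.hFM Pool.Agent.Helper20.RG.pPT pFA

theorem pFZ : Pool.Agent.Helper68.EP.StFZ :=
  Pool.Agent.Helper90.EP.hFZ Pool.Agent.Helper20.RG.pPT Pool.Agent.Helper20.RG.pCOV pCPP pFM Pool.Agent.Helper20.RG.pRES Pool.Agent.Helper20.RG.pFIN

end Pool.Agent.Helper68.EP
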