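import Pool.Agent.Helper20.RL.St1

/-!
# Project EP (MP_cb927e_an): the endpoint `(G_p)` for `(√13-1)/2 < p < 2`

Definitions for part Z (the number of rich long cells through a point).  Notation of the projects RG and RL
(`Pool.Agent.Helper20.RG.Defs`, `Defs2`, `Pool.Agent.Helper20.RL.Defs`): `pr`, `Sq`, `E`, `pt`, `RQ`, `Rich`, `Fml`, `BM`.
-/

set_option autoImplicit false

open MeasureTheory Set Filter Topology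
open scoped ENNReal RealInnerProductSpace

namespace Pool.Agent.Helper68.EP

open Pool.Agent.Helper68.LM (Pl BB Bd Av HL ft fm DQ)
open Pool.Agent.Helper20.RG
open Pool.Agent.Helper20.RL (RQ Rich BM Fml)

/-- the nine dyadic squares of side `2^b` around `z` -/
def DQ3 (b : ℤ) (z : Pl) : Set Pl :=
  {y | |⌊y 0 / (2 : ℝ) ^ b⌋ - ⌊z 0 / (2 : ℝ) ^ b⌋| ≤ 1 ∧ |⌊y 1 / (2 : ℝ) ^ b⌋ - ⌊z 1 / (2 : ℝ) ^ b⌋| ≤ 1}

/-- the points of `E` around which `E` has density at most `D` at all scales `≥ b` (exit scale at most `b`) -/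
def Fb (E : Set Pl) (D : ℝ) (b : ℤ) : Set Pl :=
  {z | z ∈ E ∧ ∀ b' : ℤ, b ≤ b' → volume (E ∩ DQ3 b' z) ≤ ENNReal.ofReal (D * (4 : ℝ) ^ b')}

/-- the fixed parameters: `1 < s < p < 2`, `ε ≤ (s-1)/64` -/
structure Par where
  p : ℝ
  s : ℝ
  ε : ℝ
  A : ℝ
  c0 : ℕ
  hs : 1 < s
  hsp : s < p
  hp : p < 2
  hε : 0 < ε
  hεs : 64 * ε ≤ s - 1
  hA : 0 ≤ A

/-- the small exponent `(s-1)/64` -/
noncomputable def Par.g (P : Par) : ℝ := (P.s - 1) / 64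

/-- `2^q0` is the smallest age of class `u` which is considered: about `2^((p-ε)u)` -/
noncomputable def q0 (P : Par) (u : ℕ) : ℕ := ⌊(P.p - P.ε) * u⌋₊

/-- `2^q1` bounds the flatness of class `u`: about `2^(pu)` -/
noncomputable def q1 (P : Par) (u : ℕ) : ℕ := ⌈P.p * u⌉₊ + P.c0

/-- the density of class `u` -/
noncomputable def DD (P : Par) (u : ℕ) : ℝ := (2 : ℝ) ^ (-(P.s * u))

/-- the thresholds `η_q`, with sum at most `1/8` -/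
noncomputable def et (P : Par) (u q : ℕ) : ℝ := (2 : ℝ) ^ ((q : ℤ) - (q1 P u : ℤ) - 4)

/-- the data of a curve: `ell θ i` = measure of the parameters whose slope is within `2^(-i)` of `θ`; slopes and flatness
of the chords -/
structure Dat where
  ell : ℝ → ℕ → ℝ
  sl : ℕ → ℕ → ℝ
  fl : ℕ → ℕ → ℕ

/-- the properties of these data -/
structure Sy (P : Par) (Δ : Dat) : Prop where
  slope : ∀ u j : ℕ, 1 ≤ u → j < 2 ^ u → |Δ.sl u j| ≤ 1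
  flat : ∀ u j : ℕ, 1 ≤ u → j < 2 ^ u → u ≤ Δ.fl u j + 1 ∧ Δ.fl u j ≤ 2 ^ q1 P u
  unit : ∀ (θ : ℝ) (i : ℕ), 0 ≤ Δ.ell θ i ∧ Δ.ell θ i ≤ 1
  mono : ∀ (θ : ℝ) (i : ℕ), Δ.ell θ (i + 1) ≤ Δ.ell θ i
  shift : ∀ (θ θ' : ℝ) (i : ℕ), |θ - θ'| ≤ (2 : ℝ) ^ (-((i : ℤ) + 1)) → Δ.ell θ (i + 1) ≤ Δ.ell θ' i
  sep : ∀ (u : ℕ) (θ : ℝ) (i : ℕ), 1 ≤ u →
    ({j : ℕ | j < 2 ^ u ∧ |Δ.sl u j - θ| ≤ (2 : ℝ) ^ (-(i : ℤ))}.ncard : ℝ) ≤ 1 + (2 : ℝ) ^ u * Δ.ell θ i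
  act : ∀ u j i : ℕ, 1 ≤ u → j < 2 ^ u → i + u + 1 ≤ Δ.fl u j → 1 ≤ (2 : ℝ) ^ u * Δ.ell (Δ.sl u j) i
  sum : ∀ (θ : ℝ) (n : ℕ), ∑ i ∈ Finset.range n, Δ.ell θ (i + 1) ^ P.p ≤ P.A

/-- the points of `E` of age at least `2^q` at the scale `k`, for the class `u` -/
def Fo (P : Par) (u : ℕ) (k : ℤ) (q : ℕ) (E : Set Pl) : Set Pl := Fb E (DD P u) (k - 2 ^ q)

/-- the widths `w` (exponents) for which the cell of length `2^(k-u)` around `y` is rich -/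
def Wc (P : Par) (Δ : Dat) (u j : ℕ) (k : ℤ) (θ : ℝ) (E : Set Pl) (y : Pl) : Set ℤ :=
  {w | k - (Δ.fl u j : ℤ) ≤ w ∧ w ≤ k - 2 ^ q0 P u ∧
    Rich (Fo P u k (q0 P u) E) (Δ.sl u j) (k - (u : ℤ)) w θ y}

/-- the union of the rich cells of the chord `j` of class `u` at scale `k` -/
def Vc (P : Par) (Δ : Dat) (u j : ℕ) (k : ℤ) (θ : ℝ) (E : Set Pl) : Set Pl :=
  {y | (Wc P Δ u j k θ E y).Nonempty}

/-- the largest width -/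
noncomputable def Bc (P : Par) (Δ : Dat) (u j : ℕ) (k : ℤ) (θ : ℝ) (E : Set Pl) (y : Pl) : ℤ :=
  sSup (Wc P Δ u j k θ E y)

/-- the cell of `y` -/
def Qc (P : Par) (Δ : Dat) (u j : ℕ) (k : ℤ) (θ : ℝ) (E : Set Pl) (y : Pl) : Set Pl :=
  RQ (Δ.sl u j) (k - (u : ℤ)) (Bc P Δ u j k θ E y) y

/-- the typical points -/
def Tc (P : Par) (Δ : Dat) (u j : ℕ) (k : ℤ) (θ : ℝ) (E : Set Pl) : Set Pl :=
  {z | z ∈ Fo P u k (q0 P u) E ∧ z ∈ Vc P Δ u j k θ E ∧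
    (∀ a : ℤ, a ≤ k - (u : ℤ) →
      Rich (Fo P u k (q0 P u) E) (Δ.sl u j) a (Bc P Δ u j k θ E z) (θ / 8) z) ∧
    ∀ q : ℕ, q0 P u ≤ q → q ≤ q1 P u → z ∈ Fo P u k q E → ∀ a : ℤ, a ≤ k - (u : ℤ) →
      Rich (Fo P u k q E) (Δ.sl u j) a (Bc P Δ u j k θ E z) (et P u q * θ) z}

/-- points of age between `2^q` and `2^(q+1)` -/
def Lv (P : Par) (u : ℕ) (k : ℤ) (q : ℕ) (E : Set Pl) : Set Pl := Fo P u k q E \ Fo P u k (q + 1) E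

/-- the points near whose age the slope of the chord has at least `M` neighbours -/
def Cn (P : Par) (Δ : Dat) (u j : ℕ) (k : ℤ) (M : ℝ) (E : Set Pl) : Set Pl :=
  {z | ∃ q : ℕ, q0 P u ≤ q ∧ q ≤ q1 P u ∧ z ∈ Lv P u k q E ∧
    M ≤ (2 : ℝ) ^ u * Δ.ell (Δ.sl u j) (2 ^ (q - 3))}

/-- the union of the rich cells in which at least half of the points are in `Cn` -/
def VM (P : Par) (Δ : Dat) (u j : ℕ) (k : ℤ) (θ M : ℝ) (E : Set Pl) : Set Pl :=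
  {y | y ∈ Vc P Δ u j k θ E ∧ volume (Fo P u k (q0 P u) E ∩ Qc P Δ u j k θ E y) ≤
    2 * volume (Fo P u k (q0 P u) E ∩ Cn P Δ u j k M E ∩ Qc P Δ u j k θ E y)}

/-- the typical points of `(u₂, j₂, k₂)` which are also typical for some `(u₁, j₁, k₁)` of a transversal direction, `k₁ ≤ k₂`,
with age about `2^q` at `k₁` -/
def Bad (P : Par) (Δ : Dat) (u₁ q u₂ j₂ : ℕ) (k₂ : ℤ) (θ : ℝ) (E : Set Pl) : Set Pl :=
  {z | z ∈ Tc P Δ u₂ j₂ k₂ θ E ∧ ∃ j₁ : ℕ, j₁ < 2 ^ u₁ ∧ ∃ k₁ : ℤ, k₁ ≤ k₂ ∧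
    z ∈ Tc P Δ u₁ j₁ k₁ θ E ∧ z ∈ Lv P u₁ k₁ q E ∧
    (2 : ℝ) ^ (-((2 ^ (q - 3) : ℕ) : ℤ)) < |Δ.sl u₁ j₁ - Δ.sl u₂ j₂|}

/-- ridges of class `u₁` and age `2^q` at the grid point `κ`, transversal to the direction `s₂` -/
def Rg1 (P : Par) (Δ : Dat) (u₁ q : ℕ) (κ : ℤ) (s₂ θ : ℝ) (E : Set Pl) : Set Pl :=
  {z | ∃ j₁ : ℕ, j₁ < 2 ^ u₁ ∧ (2 : ℝ) ^ (-((2 ^ (q - 3) : ℕ) : ℤ)) < |Δ.sl u₁ j₁ - s₂| ∧
    ∃ w : ℤ, w ≤ κ - 15 * 2 ^ (q - 4) ∧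
      Rich (Fb E (DD P u₁) (κ - 15 * 2 ^ (q - 4))) (Δ.sl u₁ j₁) (κ - 12 * 2 ^ (q - 4)) w
        (et P u₁ q * θ) z}

/-- the exceptional points: density more than `ϑ` at some scale `b'`, but less than `θ'` in the dyadic square at a
smaller scale `b` -/
def At (E : Set Pl) (ϑ θ' : ℝ) : Set Pl :=
  {z | z ∈ E ∧ ∃ b b' : ℤ, b ≤ b' ∧ ENNReal.ofReal (ϑ * (4 : ℝ) ^ b') < volume (E ∩ DQ3 b' z) ∧
    volume (E ∩ DQ b z) < ENNReal.ofReal (θ' * (4 : ℝ) ^ b)}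

/-- numerical conditions on a class `u` and a threshold `θ` -/
structure Ok (P : Par) (u : ℕ) (θ : ℝ) : Prop where
  th : 0 < θ ∧ θ ≤ 1
  u1 : 1 ≤ u
  qq : 5 ≤ q0 P u ∧ q0 P u < q1 P u
  uq : 64 * u ≤ 2 ^ q0 P u
  den : 1024 * DD P u ≤ et P u (q0 P u) * θ

/-- union of the cells of a family: `V'` is a union of cells `Qc .. y` -/
def Sub (P : Par) (Δ : Dat) (u j : ℕ) (k : ℤ) (θ : ℝ) (E V' : Set Pl) : Prop :=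
  V' ⊆ Vc P Δ u j k θ E ∧ ∀ y ∈ V', Qc P Δ u j k θ E y ⊆ V'

end Pool.Agent.Helper68.EP
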