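import Pool.Agent.Helper68.EP.St5
import Pool.Agent.Helper20.RG.St3

/-!
# Project EP (MP_cb927e_an): interface statements, part 6 (the data of a curve, output of part L, final assembly)
-/

set_option autoImplicit false

open MeasureTheory Set Filter Topology
open scoped ENNReal RealInnerProductSpace

namespace Pool.Agent.Helper68.EP

open Pool.Agent.Helper68.LM (Pl BB Bd Av HL ft fm DQ)
open Pool.Agent.Helper20.RG
open Pool.Agent.Helper20.RL (RQ Rich BM Fml Hit)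
open Pool.Agent.Helper61.Lacunary (ConditionG LpBounded)

/-- measure of the parameters whose slope is within `2^(-i)` of `θ` -/
noncomputable def elt (τ : ℝ → ℝ) (θ : ℝ) (i : ℕ) : ℝ :=
  (volume {t : ℝ | t ∈ Icc (0 : ℝ) 1 ∧ |τ t - θ| ≤ (2 : ℝ) ^ (-(i : ℤ))}).toReal

/-- condition `(G_p)` for the slopes -/
def GapP (A p : ℝ) (τ : ℝ → ℝ) : Prop :=
  ∀ (θ : ℝ) (n : ℕ), ∑ i ∈ Finset.range n, elt τ θ (i + 1) ^ p ≤ A

/-- the data of the curve -/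
noncomputable def dat (τ : ℝ → ℝ) : Dat where
  ell := elt τ
  sl := fun u j => τ (tm u j)
  fl := mm τ

/-- GPG (about 60 lines).  `elt` is decreasing in `i`, so `i · elt θ i ^ p ≤ ∑_{i' ≤ i} elt θ i' ^ p ≤ A`.  Hypotheses: none. -/
def StGPG : Prop :=
  ∀ (τ : ℝ → ℝ) (A p : ℝ), 0 < A → 0 < p → GapP A p τ → Gap (A ^ (1 / p)) p τ

/-- SY (about 200 lines), the data of a curve satisfy `Sy`.  `τ` is nondecreasing (Graph).  `slope`: Graph.  `flat`: MM (with `Gap` from GPG, `σ = p`, `A₁ = A^(1/p)`): `mm ≤ KA A₁ p u = u + 1 + ⌈(A₁ 2^u)^p⌉₊ ≤ u + 2 + A 2^(pu) ≤ 2^(pu + c0)`, for a `c0` which depends only on `A`.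
`unit`, `mono`, `shift`: clear (the sets are contained in `[0,1]`).  `sep`: if `j₁ < .. < j_n` are the indices then `[tm u j₁, tm u j_n]` is contained in the set (`τ` monotone), of length `≥ (n-1)/2^u`.  `act`: `i + u + 1 ≤ mm`: `trn ≤ 2^u/2^mm ≤ 2^(-i-1)` (MM), and for `t ∈ [j/2^u, (j+1)/2^u]`:
`|τ t - τ (tm u j)| ≤ trn τ u j ≤ 2^(-i)` (this interval is contained in the tripled one).  `sum`: `GapP`.  Hypotheses: hMM, hGPG. -/
def StSY : Prop :=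
  ∀ (φ τ : ℝ → ℝ) (A p : ℝ), Graph φ τ → 0 < A → GapP A p τ → 1 < p → ∃ c0 : ℕ, ∀ P : Par, P.p = p →
    P.A = A → P.c0 = c0 → Sy P (dat τ)

/-- LO, the output of part L (helper61).  For every `x` outside of an exceptional set: if `Av (arc c φ) (2^k) f x > K 2^l` then the sum of the `tt` is at least `1/200`. -/
def StLO : Prop :=
  ∀ (φ τ : ℝ → ℝ) (A p : ℝ) (c : Pl), Graph φ τ → 0 < A → GapP A p τ → 1 < p → p < 2 → 3 < p ^ 2 + p →
    ∃ P : Par, P.p = p ∧ Sy P (dat τ) ∧ ∀ u₀ : ℕ, ∃ (U₀ : ℕ) (C K : ℝ), u₀ ≤ U₀ ∧ 1 ≤ C ∧ 1 ≤ K ∧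
      ∀ f : Pl → ℝ, BB f → (∀ x, 0 ≤ f x) →
        ∑' l : ℤ, ENNReal.ofReal ((2 : ℝ) ^ (p * l)) * volume {x | ∃ k : ℤ,
          K * (2 : ℝ) ^ l < Av (arc c φ) ((2 : ℝ) ^ k) f x ∧
          ∀ U₁ : ℕ, ∑ u ∈ Finset.Icc U₀ U₁, ∑ j ∈ Finset.range (2 ^ u),
            tt P (dat τ) (ce c φ) (P.g / 8) u j k (Gf f (l + (u : ℤ))) x < 1 / 200} ≤
          ENNReal.ofReal C * ∫⁻ x, ENNReal.ofReal (f x) ^ p

/-- FA (about 150 lines), the strong type estimate for bounded functions.  LO with `u₀` from XHI (`c = 1/200`).  `{x | ∃ k, K 2^l < Av ..} ⊆ (the set of LO) ∪ ⋃_k ⋃_{U₁} {x | 1/200 ≤ ∑ tt}`; the sets are increasing in `U₁` (`tt ≥ 0`), so XHI gives (monotone convergence, `U₁ → ∞`)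
`∑'_l 2^(pl) vol {x | ∃ k, K 2^l < Av ..} ≤ C ∫ f^p`.  Finally `(⨆_k Av)^p ≤ ∑'_l (K 2^(l+1))^p 1[K 2^l < ⨆_k Av]` if the supremum `S` is positive and finite (it is at most `sup f · mass`): take `l` with `K 2^l < S ≤ K 2^(l+1)`.  Hypotheses: hYB, hXHI, hLO. -/
def StFA : Prop :=
  ∀ (φ τ : ℝ → ℝ) (A p : ℝ) (c : Pl), Graph φ τ → 0 < A → GapP A p τ → 1 < p → p < 2 → 3 < p ^ 2 + p →
    ∃ C : ℝ, 0 < C ∧ ∀ g : Pl → ℝ, BB g → (∀ x, 0 ≤ g x) →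
      ∫⁻ x, (⨆ k : ℤ, ENNReal.ofReal (Av (arc c φ) ((2 : ℝ) ^ k) g x)) ^ p ≤
        ENNReal.ofReal C * ∫⁻ x, ENNReal.ofReal (g x) ^ p

/-- FM (about 120 lines).  Monotone convergence, exactly as CO2 of project RG (`f_n = min(f, n) 1_{‖x‖ ≤ n}`), with FA in place of COR.  Hypotheses: hPT, hFA. -/
def StFM : Prop :=
  ∀ (φ τ : ℝ → ℝ) (A p : ℝ) (c : Pl), Graph φ τ → 0 < A → GapP A p τ → 1 < p → p < 2 → 3 < p ^ 2 + p →
    MaxB (arc c φ) p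

/-- CPP (about 300 lines).  `δ₀` admissible, `A'` the bound of `capIntegral Ω p δ₀` (ConditionG).  `T_i = {t ∈ (0,ℓ) : |τ t - θ| ≤ 2^(-i)}`, decreasing in `i`.  Given `n`, let `n'` be the largest `i ≤ n` with `T_i` nonempty (if there is none the sum is `0` up to end points, which are null), and `t₀ ∈ T_n'`; so `t₀ ∈ T_i` for all `i ≤ n'`.
As in the proof of CAP (project RG): `y₀ = P + t₀ u + φ(t₀) v`, `θ₀ = -(v - τ(t₀) u)/‖v - τ(t₀) u‖`; for `t ∈ T_i` the distance of `y(t)` to `linePlus Ω θ₀` is at most `|τ t - τ t₀||t - t₀| ≤ 2·2^(-i) ℓ`, so for `δ ≥ 2^(1-i) ℓ` the cap contains `y(T_i)`, of length `≥ |T_i|`.  For the `i ≤ n'` with `2^(2-i) ℓ ≤ δ₀`: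
`|T_i|^p log 2 ≤ ∫_{2^(1-i) ℓ}^{2^(2-i) ℓ} capLength^p dδ/δ`, and the sum over these `i` is at most `A'`; the other `i` are at most `C(ℓ, δ₀)` many, with `|T_i|^p ≤ ℓ^p`.  `elt (fun t => τ (ℓ t)) θ i = |T_i|/ℓ` (end points are null).  Compare the module CAP of project RG.  Hypotheses: none. -/
def StCPP : Prop :=
  ∀ (Ω : Set Pl) (p : ℝ), IsOpen Ω → Convex ℝ Ω → Bornology.IsBounded Ω → Ω.Nonempty → 0 < p →
    ConditionG Ω p → ∀ (P u v : Pl) (ℓ : ℝ) (φ τ : ℝ → ℝ), Piece Ω P u v ℓ φ τ →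
      ∃ A : ℝ, 0 < A ∧ GapP A p (fun t => τ (ℓ * t))

/-- FZ (about 80 lines), the theorem.  COV; CPP for every piece and `Graph (φ (ℓ ·)/ℓ) (τ (ℓ ·))`; FM gives `MaxB (arc ..) p`, RES, FIN (project RG).  Hypotheses: hPT, hCOV, hCPP, hFM, hRES, hFIN. -/
def StFZ : Prop :=
  ∀ (Ω : Set Pl) (p : ℝ), IsOpen Ω → Convex ℝ Ω → Bornology.IsBounded Ω → (0 : Pl) ∈ Ω → 1 < p → p < 2 →
    3 < p ^ 2 + p → ConditionG Ω p → LpBounded Ω p

end Pool.Agent.Helper68.EP
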