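import Pool.Agent.Helper68.EP.Defs

/-!
# Project EP (MP_cb927e_an): interface statements, part 1 (exit scales, rich cells, typical points)

Every statement is a `Prop` proved in a module of its own.  Complete proofs are in the docstrings.
`StPT`, `StPAR` are statements of project RG, `StLGR`, `StLMX`, `StLFM` of project RL (all proved; see
`Pool.Agent.Helper20.RG.Asm`, `Pool.Agent.Helper20.RL.Asm`).
-/

set_option autoImplicit false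

open MeasureTheory Set Filter Topology
open scoped ENNReal RealInnerProductSpace

namespace Pool.Agent.Helper68.EP

open Pool.Agent.Helper68.LM (Pl BB Bd Av HL ft fm DQ)
open Pool.Agent.Helper20.RG
open Pool.Agent.Helper20.RL (RQ Rich BM Fml)

/-- EQ (about 150 lines), the nine squares.  If `|t| ≤ 1` then `|⌊x + t⌋ - ⌊x⌋| ≤ 1`, and if `|⌊x⌋ - ⌊y⌋| ≤ 1` then `|x - y| < 2` (with `x = y i / 2^b`).  `DQ b z = RQ 0 b b z`: `pr 0 z = z 1`.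
For `b ≤ b'` the number `⌊x / 2^b'⌋` is determined by `⌊x / 2^b⌋`, so it agrees for `z` and `z' ∈ DQ b z`.  Fifth clause: in `RQ s b b z` one has `|y 0 - z 0| < 2^b`, `|pr s y - pr s z| < 2^b`,
`|y 1 - z 1| < 2^b + 2^b = 2^(b+1)` (`LGR`), and `Sq z (2^(b+1)) ⊆ DQ3 (b+1) z` by the second clause.  Last: `z ↦ vol(E ∩ DQ3 b z)` is constant on the countably many measurable cells
`DQ b z`, so measurable (it factors through the measurable map `z ↦ (⌊z 0/2^b⌋, ⌊z 1/2^b⌋)` into the countable discrete space `ℤ × ℤ`); same for `DQ`.  Hypotheses: hPT, hLGR. -/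
def StEQ : Prop :=
  (∀ (b : ℤ) (z : Pl), MeasurableSet (DQ3 b z) ∧ z ∈ DQ b z ∧ DQ b z ⊆ DQ3 b z ∧ DQ b z = RQ 0 b b z) ∧
  (∀ (b : ℤ) (z : Pl), Sq z ((2 : ℝ) ^ b) ⊆ DQ3 b z ∧ DQ3 b z ⊆ Sq z (2 * (2 : ℝ) ^ b)) ∧
  (∀ (b b' : ℤ) (z z' : Pl), b ≤ b' → z' ∈ DQ b z → DQ3 b' z' = DQ3 b' z ∧ DQ b' z' = DQ b' z) ∧
  (∀ (b b' : ℤ) (z : Pl), b ≤ b' → DQ b z ⊆ DQ b' z) ∧
  (∀ (s : ℝ) (b : ℤ) (z : Pl), |s| ≤ 1 → RQ s b b z ⊆ DQ3 (b + 1) z) ∧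
  ∀ (E : Set Pl) (b : ℤ), Measurable (fun z : Pl => volume (E ∩ DQ3 b z)) ∧
    Measurable (fun z : Pl => volume (E ∩ DQ b z))

/-- EFB (about 120 lines), exit scales.  Measurable: countable intersection over `b'` (EQ, last clause).  Monotonicity: clear; third clause: `vol(E' ∩ DQ3) ≤ vol(E ∩ DQ3)`.  Fourth: let `z' ∈ E ∩ DQ b' z`, `b' ≤ b`; then
`DQ3 b'' z' = DQ3 b'' z` for all `b'' ≥ b` (EQ).  Fifth: if the intersection is nonempty let `z` be a point of it; then `DQ b' y = DQ b' z ⊆ DQ3 b' z` and `Fb E D b ⊆ E`.  Hypotheses: hEQ. -/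
def StEFB : Prop :=
  (∀ (E : Set Pl) (D : ℝ) (b : ℤ), Fb E D b ⊆ E ∧ (MeasurableSet E → MeasurableSet (Fb E D b)) ∧
    (BM E → BM (Fb E D b))) ∧
  (∀ (E : Set Pl) (D D' : ℝ) (b b' : ℤ), b ≤ b' → D ≤ D' → Fb E D b ⊆ Fb E D' b') ∧
  (∀ (E E' : Set Pl) (D : ℝ) (b : ℤ), E' ⊆ E → Fb E D b ∩ E' ⊆ Fb E' D b) ∧
  (∀ (E : Set Pl) (D : ℝ) (b b' : ℤ) (z : Pl), b' ≤ b → z ∈ Fb E D b → E ∩ DQ b' z ⊆ Fb E D b) ∧
  ∀ (E : Set Pl) (D : ℝ) (b b' : ℤ) (y : Pl), b ≤ b' →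
    volume (Fb E D b ∩ DQ b' y) ≤ ENNReal.ofReal (D * (4 : ℝ) ^ b')

/-- EVF (about 200 lines), the family of maximal rich cells.  `Wc .. y` is a bounded set of integers, so if it is nonempty `Bc .. y = sSup` is its largest element (`Int.csSup_mem`, `le_csSup`).  Let `y ∈ Vc`, `w₀ = Bc y`, `z ∈ RQ s a w₀ y`: for `w ≥ w₀`
`RQ s a w z = RQ s a w y` (LGR: `z ∈ RQ s a w₀ y ⊆ RQ s a w y`), so `w ∈ Wc z ↔ w ∈ Wc y` for `w ≥ w₀`, hence `w₀ ∈ Wc z` and `Bc z = w₀` (a larger element of `Wc z` would be in `Wc y`).  So `Qc z = Qc y`.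
This gives `Fml` for `V'` with `Sub .. V'` (`rich`: `Bc z ∈ Wc z`); `vol V' ≤ (1/θ) vol(Fo ∩ V')` and measurability: `LFM`.  `Vc` satisfies `Sub`; so does `VM` (the condition depends only on `Qc y`, `Fo`, `Cn`).
Hypotheses: hLGR, hLFM, hEFB. -/
def StEVF : Prop :=
  ∀ (P : Par) (Δ : Dat) (u j : ℕ) (k : ℤ) (θ : ℝ) (E : Set Pl), BM E → 0 < θ →
    (∀ y ∈ Vc P Δ u j k θ E, Bc P Δ u j k θ E y ∈ Wc P Δ u j k θ E y ∧
      (∀ w ∈ Wc P Δ u j k θ E y, w ≤ Bc P Δ u j k θ E y) ∧ y ∈ Qc P Δ u j k θ E y ∧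
      ∀ z ∈ Qc P Δ u j k θ E y, z ∈ Vc P Δ u j k θ E ∧ Bc P Δ u j k θ E z = Bc P Δ u j k θ E y ∧
        Qc P Δ u j k θ E z = Qc P Δ u j k θ E y) ∧
    Sub P Δ u j k θ E (Vc P Δ u j k θ E) ∧ (∀ M : ℝ, Sub P Δ u j k θ E (VM P Δ u j k θ M E)) ∧
    ∀ V' : Set Pl, Sub P Δ u j k θ E V' →
      Fml (Fo P u k (q0 P u) E) (Δ.sl u j) θ V' (fun _ => k - (u : ℤ)) (Bc P Δ u j k θ E) ∧
      MeasurableSet V' ∧ (∀ w : ℤ, MeasurableSet {y | y ∈ V' ∧ Bc P Δ u j k θ E y = w}) ∧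
      volume V' ≤ ENNReal.ofReal (1 / θ) * volume (Fo P u k (q0 P u) E ∩ V')

/-- ECS (about 100 lines), summation over the cells.  `V` is the countable disjoint union of its cells `RQ s (A z) (B z) z` (index: `A z`, `B z`, the two floors), which are measurable.
`vol(X ∩ V) ≤ ∑ vol(X ∩ cell) ≤ c ∑ vol(Y ∩ cell) = c vol(Y ∩ V)` (use `volume.restrict Y` for the last equality: cells measurable and disjoint).  Hypotheses: hLGR. -/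
def StECS : Prop :=
  ∀ (F : Set Pl) (s θ : ℝ) (V X Y : Set Pl) (A B : Pl → ℤ) (c : ℝ≥0∞), Fml F s θ V A B →
    (∀ z ∈ V, volume (X ∩ RQ s (A z) (B z) z) ≤ c * volume (Y ∩ RQ s (A z) (B z) z)) →
    volume (X ∩ V) ≤ c * volume (Y ∩ V)

/-- ETG (about 150 lines), few atypical points (compare the proof of `StLTY` of project RL).  Fix `β : ℤ`, `V_β = {z ∈ V | B z = β}` (measurable, a union of cells `RQ s a β z`).  `LMX` with `a k = k`, `b k = β`, `T = {k ≤ a}`,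
`P k = {z ∈ V_β | ¬ Rich F' s k β ϑ z}` (a union of cells `RQ s k β z`: they are contained in `RQ s a β z ⊆ V_β`, and `Rich` is constant on them), `X = {z ∈ F' ∩ V_β | ∃ a' ≤ a, ¬ Rich F' s a' β ϑ z}`, `Y = V_β`, `c = ofReal ϑ`:
`vol(X ∩ cell) ≤ vol(F' ∩ cell) ≤ ϑ 2^(k+β) = ϑ vol(V_β ∩ cell)`.  Sum over `β`.  Hypotheses: hLGR, hLMX, hLFM. -/
def StETG : Prop :=
  ∀ (F F' : Set Pl) (s θ ϑ : ℝ) (V : Set Pl) (a : ℤ) (B : Pl → ℤ), MeasurableSet F → MeasurableSet F' →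
    0 < θ → 0 < ϑ → Fml F s θ V (fun _ => a) B →
    volume {z | z ∈ F' ∧ z ∈ V ∧ ∃ a' : ℤ, a' ≤ a ∧ ¬ Rich F' s a' (B z) ϑ z} ≤
      ENNReal.ofReal ϑ * volume V

/-- EME (about 120 lines), measurability.  `Fo`, `Lv`: EFB.  `Vc`, `{Bc = w}`: EVF.  `Tc`: for every `w` the part with `Bc = w` is an intersection of countably many sets of the form `{z | Rich F s a w ϑ z}` (measurable by `LFM`, first part) and
complements of `Fo`.  `Cn`: finite union.  `Bad`: countable union over `j₁ < 2^u₁`, `k₁ ≤ k₂`.  `At`: EQ.  (The condition `P → Q z` with `P` independent of `z` is trivial or `Q z`.)  Hypotheses: hLFM, hEQ, hEFB, hEVF. -/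
def StEME : Prop :=
  ∀ (P : Par) (Δ : Dat) (θ : ℝ) (E : Set Pl), BM E → 0 < θ →
    (∀ (u q : ℕ) (k : ℤ), BM (Fo P u k q E) ∧ Fo P u k q E ⊆ E ∧ MeasurableSet (Lv P u k q E)) ∧
    (∀ (u j : ℕ) (k : ℤ), MeasurableSet (Vc P Δ u j k θ E) ∧ MeasurableSet (Tc P Δ u j k θ E)) ∧
    (∀ (u j : ℕ) (k : ℤ) (M : ℝ), MeasurableSet (Cn P Δ u j k M E)) ∧
    (∀ (u₁ q u₂ j₂ : ℕ) (k₂ : ℤ), MeasurableSet (Bad P Δ u₁ q u₂ j₂ k₂ θ E)) ∧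
    ∀ ϑ θ' : ℝ, BM (At E ϑ θ')

/-- ETY (about 150 lines), typical points.  First part: `F ∩ V' \ Tc` (`F = Fo .. (q0 P u)`) is contained in the union of the set of ETG with `F' = F`, `ϑ = θ/8` and of the sets of ETG with `F' = Fo P u k q E`, `ϑ = η_q θ`, `q ≤ q1`;
`∑_{q ≤ q1} η_q = ∑ 2^(q-q1-4) ≤ 1/8`.  Second: `vol V' ≤ (1/θ) vol(F ∩ V')` (EVF), so `vol(F ∩ V' \ Tc) ≤ ¼ vol(F ∩ V')`, finite.  Third: `φ = vol(F ∩ VM)`; by ECS with `X = F`, `Y = F ∩ Cn`, `c = 2` (definition of `VM`)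
`φ ≤ 2 vol(F ∩ Cn ∩ VM) ≤ 2 vol(Tc ∩ Cn ∩ VM) + 2 vol(F ∩ VM \ Tc) ≤ 2 vol(Tc ∩ Cn ∩ VM) + φ/2`, so `φ ≤ 4 vol(..)`, and `vol VM ≤ φ/θ`.  Hypotheses: hEVF, hECS, hETG, hEFB. -/
def StETY : Prop :=
  ∀ (P : Par) (Δ : Dat) (u j : ℕ) (k : ℤ) (θ : ℝ) (E : Set Pl), BM E → 0 < θ →
    (∀ V' : Set Pl, Sub P Δ u j k θ E V' →
      volume ((Fo P u k (q0 P u) E ∩ V') \ Tc P Δ u j k θ E) ≤ ENNReal.ofReal (θ / 4) * volume V' ∧
      volume V' ≤ ENNReal.ofReal (2 / θ) * volume (Tc P Δ u j k θ E ∩ V')) ∧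
    ∀ M : ℝ, volume (VM P Δ u j k θ M E) ≤ ENNReal.ofReal (4 / θ) *
      volume (Tc P Δ u j k θ E ∩ Cn P Δ u j k M E ∩ VM P Δ u j k θ M E)

/-- EF1 (about 150 lines), typical points have exit scales above their cell.  `B = Bc .. z`, `a = k - u`.  `Bc z ∈ Wc z`: `k - fl ≤ B ≤ k - 2^q0 ≤ k - u` (`64 u ≤ 2^q0`).
(1) Third clause of `Tc` with `a = B`: `vol(Fo ∩ RQ s B B z) ≥ (θ/8) 4^B = (θ/32) 4^(B+1)`, and `Fo ⊆ E`, `RQ s B B z ⊆ DQ3 (B+1) z` (EQ).  (2) If `D < θ/32` then `z ∉ Fb E D b` for `b ≤ B + 1` (take `b' = B + 1`).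
(3) `z ∈ Fo q`, `q0 ≤ q ≤ q1`: last clause of `Tc` with `a = B`: `vol(E ∩ DQ3 (B+1) z) ≥ η_q θ 4^B ≥ 256 DD 4^(B+1)` (`η_q ≥ η_q0`, `Ok.den`), more than `DD 4^(B+1)` as `DD > 0`, so `B + 1 < k - 2^q`, and `2^q < k - B ≤ fl ≤ 2^q1`; so `q < q1`.
(4) `z ∈ Fo q0`; let `q` be the largest `q ≤ q1` with `z ∈ Fo q`; `q < q1` by (3), so `z ∉ Fo (q+1)`.  Hypotheses: hEQ, hEFB, hEVF. -/
def StEF1 : Prop :=
  ∀ (P : Par) (Δ : Dat) (u j : ℕ) (k : ℤ) (θ : ℝ) (E : Set Pl) (z : Pl), Sy P Δ → Ok P u θ → j < 2 ^ u →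
    BM E → z ∈ Tc P Δ u j k θ E →
    (k - (Δ.fl u j : ℤ) ≤ Bc P Δ u j k θ E z ∧ Bc P Δ u j k θ E z ≤ k - 2 ^ q0 P u ∧
      Bc P Δ u j k θ E z ≤ k - (u : ℤ)) ∧
    ENNReal.ofReal (θ / 32 * (4 : ℝ) ^ (Bc P Δ u j k θ E z + 1)) ≤
      volume (E ∩ DQ3 (Bc P Δ u j k θ E z + 1) z) ∧
    (∀ (D : ℝ) (b : ℤ), D < θ / 32 → b ≤ Bc P Δ u j k θ E z + 1 → z ∉ Fb E D b) ∧
    (∀ q : ℕ, q0 P u ≤ q → q ≤ q1 P u → z ∈ Fo P u k q E →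
      Bc P Δ u j k θ E z + 1 < k - 2 ^ q ∧ 2 ^ q < Δ.fl u j ∧ q < q1 P u) ∧
    ∃ q : ℕ, q0 P u ≤ q ∧ q < q1 P u ∧ z ∈ Lv P u k q E

end Pool.Agent.Helper68.EP
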