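import Pool.Agent.Helper68.EP.St1

/-!
# Project EP (MP_cb927e_an): interface statements, part 2 (the crossing lemma, pairs of classes `u₂ ≤ u₁`)
-/

set_option autoImplicit false

open MeasureTheory Set Filter Topology
open scoped ENNReal RealInnerProductSpace

namespace Pool.Agent.Helper68.EP

open Pool.Agent.Helper68.LM (Pl BB Bd Av HL ft fm DQ)
open Pool.Agent.Helper20.RG
open Pool.Agent.Helper20.RL (RQ Rich BM Fml)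

/-- the slightly enlarged ridges: `x` is in the vertical strip of a rich cell of width `2^w`, `w ≤ b`, at distance at most
`3·2^w` from it -/
def Rs (F : Set Pl) (s : ℝ) (a b : ℤ) (ϑ : ℝ) : Set Pl :=
  {x | ∃ (y : Pl) (w : ℤ), w ≤ b ∧ Rich F s a w ϑ y ∧ ⌊x 0 / (2 : ℝ) ^ a⌋ = ⌊y 0 / (2 : ℝ) ^ a⌋ ∧
    |pr s x - pr s y| ≤ 3 * (2 : ℝ) ^ w}

/-- the section of these ridges over the dyadic interval of index `n` -/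
def Os (F : Set Pl) (s : ℝ) (a b : ℤ) (ϑ : ℝ) (n : ℤ) : Set ℝ :=
  {ρ | ∃ (y : Pl) (w : ℤ), w ≤ b ∧ Rich F s a w ϑ y ∧ ⌊y 0 / (2 : ℝ) ^ a⌋ = n ∧
    |ρ - pr s y| ≤ 3 * (2 : ℝ) ^ w}

/-- ECO (about 250 lines), the ridges over a dyadic interval.  Cells are indexed by `(w,i)`: `J = [i 2^w, (i+1) 2^w)`, `C(J) = {x | ⌊x 0/2^a⌋ = n, pr s x ∈ J}` (an `RQ s a w y` with `y = pt (n 2^a) (i 2^w + s n 2^a)`), area `2^(a+w)`.  Measurable: `Os` is the countable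
union over the rich `J`, `w ≤ b`, of the intervals `{ρ : ρ within 3·2^w of a point of J}` (if `y` is in the rich cell, all points of the cell are possible `y`).
Let `ρ ∈ Os`, `|ρ - c| ≤ r`, with `(y,w)`: `pr s y ∈ J`, `J ⊆ G₁ = [c - r - 4·2^b, c + r + 4·2^b]`.  Consider the rich `J` of length at most `2^b` which meet `[c - r - 3·2^b, c + r + 3·2^b]` (so contained in `G₁`) and the maximal ones among them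
(dyadic intervals are nested or disjoint): disjoint, `ρ` is within `3·2^(w*)` of the maximal one `J* ⊇ J`, so the set is covered by intervals of length `7 |J*|`.  `2^a |J*| ≤ (1/ϑ) vol(F ∩ C(J*))`, the `C(J*)` are disjoint and contained in
`G = {⌊x 0/2^a⌋ = n, pr s x ∈ G₁}`.  `G` is covered by at most `13·2^a r/4^b` dyadic squares of side `2^b` (`2^(a-b)` columns; in a column `x 1 = pr s x + s x 0` varies in an interval of length `2(r + 4·2^b) + 2^b`, at most `(2r + 9·2^b)/2^b + 2 ≤ 13 r/2^b` rows), each of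
`F`-measure `≤ D 4^b`.  So `∑ |J*| ≤ 13 D r/ϑ`, and the measure is at most `91 D r/ϑ`.  Hypotheses: hPT, hLGR, hLFM, hEQ. -/
def StECO : Prop :=
  ∀ (F : Set Pl) (s : ℝ) (a b n : ℤ) (D ϑ c r : ℝ), |s| ≤ 1 → BM F → b ≤ a → 0 < D → 0 < ϑ →
    (∀ y : Pl, volume (F ∩ DQ b y) ≤ ENNReal.ofReal (D * (4 : ℝ) ^ b)) → (2 : ℝ) ^ b ≤ r →
    MeasurableSet (Os F s a b ϑ n) ∧
    volume {ρ : ℝ | |ρ - c| ≤ r ∧ ρ ∈ Os F s a b ϑ n} ≤ ENNReal.ofReal (91 * D / ϑ * r)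

/-- ECR (about 250 lines), the crossing lemma.  `P = {x | g ≤ x 0 ≤ g + 2^a, |pr s₂ x - c| ≤ h}` meets at most three strips `{⌊x 0/2^a⌋ = n}`; in such a strip `x ∈ Rs` iff `pr s₁ x ∈ O := Os F s₁ a b ϑ n`.  So bound `vol(P_n)`, `P_n = {⌊x 0/2^a⌋ = n, |pr s₂ x - c| ≤ h, pr s₁ x ∈ O}`.
If `2^b ≤ h`: Fubini (PT): for fixed `x 0` the condition on `x 1` is `ρ = x 1 - s₁ x 0 ∈ O`, `|ρ - (c + (s₂ - s₁) x 0)| ≤ h`: measure `≤ 91 D h/ϑ` (ECO with `r = h`); times `2^a`.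
If `h < 2^b ≤ α 2^a`, `α = |s₁ - s₂|`: for `x ∈ P_n`, `pr s₁ x = pr s₂ x + (s₂ - s₁) x 0`, so `|pr s₁ x - c'| ≤ h + α 2^a ≤ 2 α 2^a` with `c' = c + (s₂ - s₁) n 2^a`; `r = 2 α 2^a ≥ 2^b`: `PAR`: `vol(P_n) ≤ (91 D/ϑ) 2 α 2^a · 2h/α = 364 (D/ϑ) 2^a h`.
Total at most `3·364 ≤ 1100`.  Hypotheses: hPT, hPAR, hECO. -/
def StECR : Prop :=
  ∀ (F : Set Pl) (s₁ s₂ : ℝ) (a b : ℤ) (D ϑ g c h : ℝ), |s₁| ≤ 1 → |s₂| ≤ 1 → BM F → b ≤ a → 0 < D →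
    0 < ϑ → (∀ y : Pl, volume (F ∩ DQ b y) ≤ ENNReal.ofReal (D * (4 : ℝ) ^ b)) → 0 < h →
    ((2 : ℝ) ^ b ≤ h ∨ (2 : ℝ) ^ b ≤ |s₁ - s₂| * (2 : ℝ) ^ a) →
    volume (Rs F s₁ a b ϑ ∩ {x : Pl | g ≤ x 0 ∧ x 0 ≤ g + (2 : ℝ) ^ a ∧ |pr s₂ x - c| ≤ h}) ≤
      ENNReal.ofReal (1100 * D / ϑ * ((2 : ℝ) ^ a * h))

/-- the coefficient of the pair bounds: `2^u₁` directions, density `DD`, threshold `η_q θ` -/
noncomputable def cq (P : Par) (u₁ q : ℕ) (θ : ℝ) : ℝ :=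
  1100 * 2 ^ u₁ * DD P u₁ / (et P u₁ q * θ)

/-- ECQ (about 150 lines), all ridges of a class and one cell.  `G = 2^(q-4)` (so `2^(q-3) = 2G`), `a = κ - 12G`, `b = κ - 15G`, `F = Fb E (DD P u₁) b`.  `Rg1 ⊆ ⋃_{j₁} Rs F (sl u₁ j₁) a b (η_q θ)` over the transversal `j₁` (`x = y`).  The cell `RQ s₂ a₂ w₂ y`, `a ≤ a₂`, is the disjoint union of
`2^(a₂-a)` cells `RQ s₂ a w₂ y'` (a dyadic interval of length `2^a₂` is the union of `2^(a₂-a)` dyadic intervals of length `2^a`), each contained in a set `{g ≤ x 0 ≤ g + 2^a, |pr s₂ x - c| ≤ 2^w₂}`.  ECR (second alternative: `|s₁ - s₂| 2^a > 2^(-2G + κ - 12G) ≥ 2^b`; density: EFB, `BM F`) gives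
`1100 (DD/(η_q θ)) 2^(a+w₂)` for each; sum over `j₁` and the subcells.  Hypotheses: hLGR, hEFB, hECR. -/
def StECQ : Prop :=
  ∀ (P : Par) (Δ : Dat) (u₁ q : ℕ) (κ a₂ w₂ : ℤ) (s₂ θ : ℝ) (E : Set Pl) (y : Pl), Sy P Δ → Ok P u₁ θ →
    4 ≤ q → |s₂| ≤ 1 → BM E → κ - 12 * 2 ^ (q - 4) ≤ a₂ →
    volume (Rg1 P Δ u₁ q κ s₂ θ E ∩ RQ s₂ a₂ w₂ y) ≤
      ENNReal.ofReal (cq P u₁ q θ * (2 : ℝ) ^ (a₂ + w₂))

/-- EEN (about 120 lines), entries lie in the ridges.  `G = 2^(q-4)`, `2^q = 16G`, `2^(q+1) = 32G`, `κ ≤ k₁ < κ + G`, `b = κ - 15G`, `a = κ - 12G`.  `k₁ - 2^q ≤ b`, so `Fo P u₁ k₁ q E = Fb E DD (k₁ - 16G) ⊆ Fb E DD b`; `z ∈ Tc`, `z ∈ Fo q`: `Rich (Fo q) s₁ a' B (η_q θ) z` for all `a' ≤ k₁ - u₁`,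
`B = Bc P Δ u₁ j₁ k₁ θ E z`; take `a' = a ≤ k₁ - 12G ≤ k₁ - u₁` (`64 u₁ ≤ 2^q0 ≤ 2^q = 16G`); `Rich` is monotone in the set.  `B < k₁ - 2^q - 1 ≤ b` (EF1, `q ≤ q1`).  Last: `z ∉ Fo (q+1) = Fb E DD (k₁ - 32G)`, and `κ - 33G ≤ k₁ - 32G` (monotone).  Hypotheses: hEFB, hEF1. -/
def StEEN : Prop :=
  ∀ (P : Par) (Δ : Dat) (u₁ j₁ q : ℕ) (k₁ κ : ℤ) (s₂ θ : ℝ) (E : Set Pl) (z : Pl), Sy P Δ → Ok P u₁ θ →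
    j₁ < 2 ^ u₁ → BM E → q0 P u₁ ≤ q → q < q1 P u₁ → z ∈ Tc P Δ u₁ j₁ k₁ θ E → z ∈ Lv P u₁ k₁ q E →
    κ ≤ k₁ → k₁ < κ + 2 ^ (q - 4) →
    (2 : ℝ) ^ (-((2 ^ (q - 3) : ℕ) : ℤ)) < |Δ.sl u₁ j₁ - s₂| →
    z ∈ Rg1 P Δ u₁ q κ s₂ θ E ∧ z ∈ Fb E (DD P u₁) (κ - 15 * 2 ^ (q - 4)) ∧
      z ∉ Fb E (DD P u₁) (κ - 33 * 2 ^ (q - 4))

/-- EPA (about 200 lines), the pair bound for `u₂ ≤ u₁`.  By ECS (`Fml` from EVF, `Y = univ`) it suffices to bound `vol(Bad ∩ Q)` for one cell `Q = Qc .. y`, `y ∈ V'`, `B = Bc y`, area `2^(k₂-u₂+B)`.  Let `z ∈ Bad ∩ Q`, `z ∈ Tc u₂ j₂ k₂`, `Bc z = B`, entry `(j₁,k₁)`, `G = 2^(q-4)`, `κ = G ⌊k₁/G⌋`.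
EF1 for `(u₂,j₂,k₂)` with `D = DD P u₁ < θ/32` (`Ok`): `z ∉ Fb E (DD P u₁) (B+1)`; EEN: `z ∈ Fb E (DD P u₁) (κ - 15G)`, so `κ - 15G > B + 1 ≥ k₂ - 2^q1(u₂) + 1`, and `κ ≤ k₁ ≤ k₂`: at most `2^q1(u₂)/G + 1` values of `κ ∈ G ℤ`.  `κ - 12G ≤ k₂ - 12G ≤ k₂ - u₂` (`u₂ ≤ u₁ ≤ 12G`).
EEN: `z ∈ Rg1 .. κ (sl u₂ j₂)`; ECQ with `a₂ = k₂ - u₂`, `w₂ = B`.  Hypotheses: hEFB, hEVF, hECS, hEF1, hECQ, hEEN. -/
def StEPA : Prop :=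
  ∀ (P : Par) (Δ : Dat) (u₁ q u₂ j₂ : ℕ) (k₂ : ℤ) (θ : ℝ) (E V' : Set Pl), Sy P Δ → Ok P u₁ θ →
    Ok P u₂ θ → u₂ ≤ u₁ → q0 P u₁ ≤ q → q < q1 P u₁ → j₂ < 2 ^ u₂ → BM E → Sub P Δ u₂ j₂ k₂ θ E V' →
    volume (Bad P Δ u₁ q u₂ j₂ k₂ θ E ∩ V') ≤
      ENNReal.ofReal ((2 ^ q1 P u₁ / 2 ^ (q - 4) + 1) * cq P u₁ q θ) * volume V'

end Pool.Agent.Helper68.EP
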