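import Pool.Agent.Helper68.EP.St2

/-!
# Project EP (MP_cb927e_an): interface statements, part 3 (pairs of classes `u₁ < u₂`)
-/

set_option autoImplicit false

open MeasureTheory Set Filter Topology
open scoped ENNReal RealInnerProductSpace

namespace Pool.Agent.Helper68.EP

open Pool.Agent.Helper68.LM (Pl BB Bd Av HL ft fm DQ)
open Pool.Agent.Helper20.RG
open Pool.Agent.Helper20.RL (RQ Rich BM Fml)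

/-- EAT (about 200 lines), few exceptional points.  `Ω = {z | ∃ b', ϑ 4^b' < vol(E ∩ DQ3 b' z)}`.  For `z ∈ Ω`: `DQ3 b' z ⊆ Sq z (2·2^b') ⊆ closedBall z (4·2^b')`, so `HL 4 1_E z ≥ 4^(-b') vol(E ∩ DQ3 b' z) > ϑ` (change of variables) and `vol Ω ≤ (C/ϑ) vol E`
(`Helper68.LM.StHLW`, proved, see `Pool.Agent.Helper68.LM.Asm`; `E.indicator 1` is `BB`).  `LMX` with `s = 0`, `a k = b k = k`, `P_b = {z | vol(E ∩ DQ b z) < θ' 4^b, ∃ b' ≥ b, ϑ 4^b' < vol(E ∩ DQ3 b' z)}` (a union of squares `DQ b z = RQ 0 b b z`, EQ), `T` = all `b ≤ b₁`, where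
`ϑ 4^(b₁) ≥ vol E` (so `b' ≤ b₁`), `X = At`, `Y = Ω`, `c = ofReal θ'`: `vol(X ∩ DQ b z) ≤ θ' 4^b = θ' vol(Ω ∩ DQ b z)` since `DQ b z ⊆ DQ b' z ⊆ Ω`.  Hypotheses: hPT, hLMX, hEQ. -/
def StEAT : Prop :=
  ∃ C : ℝ, 1 ≤ C ∧ ∀ (E : Set Pl) (ϑ θ' : ℝ), BM E → 0 < ϑ → 0 < θ' →
    volume (At E ϑ θ') ≤ ENNReal.ofReal (C * θ' / ϑ) * volume E

/-- EM1 (about 200 lines), the window.  `G = 2^(q-4)`, `L = 2^q1(u₁)`, `D = DD P u₁`, `Q = Qc .. y`, `a₂ = k₂ - u₂`, `B = Bc y`, `Y = Bad ∩ Q`.  EF1 for `(u₂,j₂,k₂)` (`D < θ/32` by `Ok P u₁ θ`): `Y ∩ Fb E D (B+1) = ∅`.  `Y ⊆ Tc ⊆ Fo P u₂ k₂ (q0 u₂) E = Fb E (DD P u₂) (k₂ - 2^q0(u₂)) ⊆ Fb E D (k₂ - 2^q0(u₂))`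
(`DD P u₂ ≤ DD P u₁`).  Let `W` be the least integer with `vol(Y ∩ Fb E D W) ≥ ½ vol Y`: `B + 2 ≤ W ≤ k₂ - 2^q0(u₂)` (`vol Y > 0`).  CLAIM: `vol(Y ∩ (Fb E D (W+L) \ Fb E D (W-1))) ≤ ¼ vol Y`.  Then `vol(Y \ Fb E D (W+L)) ≥ vol Y - vol(Y ∩ Fb E D (W-1)) - ¼ vol Y ≥ ¼ vol Y > 0`, hence `W + L < k₂ - 2^q0(u₂)`.
Proof of the claim: let `z` be in the set, with entry `(j₁,k₁)` (level `q`), `κ = G ⌊k₁/G⌋`: EEN: `z ∈ Fb E D (κ-15G) \ Fb E D (κ-33G)`, so `κ - 15G ≥ W` and `κ - 33G < W + L`: at most `L/G + 19` values of `κ ∈ G ℤ`.  `κ - 12G ≤ a₂`: if `u₂ ≤ 12G` then `κ - 12G ≤ k₁ - 12G ≤ k₂ - u₂`; if `12G < u₂`: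
`κ - 33G < k₂ - 2^q0(u₂)` (`z ∈ Fb E D (k₂ - 2^q0(u₂))`), so `κ - 12G < k₂ - 2^q0(u₂) + 21G ≤ k₂ - 64u₂ + 2u₂`.  EEN, ECQ (`w₂ = B`): the measure is at most `(L/G + 19) cq 2^(a₂+B) ≤ (δ/4) vol Q ≤ ¼ vol Y`.  Hypotheses: hEFB, hEVF, hEF1, hECQ, hEEN, hEME, hLGR. -/
def StEM1 : Prop :=
  ∀ (P : Par) (Δ : Dat) (u₁ q u₂ j₂ : ℕ) (k₂ : ℤ) (θ δ : ℝ) (E : Set Pl) (y : Pl), Sy P Δ → Ok P u₁ θ →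
    Ok P u₂ θ → u₁ < u₂ → q0 P u₁ ≤ q → q < q1 P u₁ → j₂ < 2 ^ u₂ → BM E → 0 < δ →
    (2 ^ q1 P u₁ / 2 ^ (q - 4) + 19) * cq P u₁ q θ ≤ δ / 4 → y ∈ Vc P Δ u₂ j₂ k₂ θ E →
    ENNReal.ofReal δ * volume (Qc P Δ u₂ j₂ k₂ θ E y) <
      volume (Bad P Δ u₁ q u₂ j₂ k₂ θ E ∩ Qc P Δ u₂ j₂ k₂ θ E y) →
    ∃ W : ℤ, Bc P Δ u₂ j₂ k₂ θ E y ≤ W ∧ W ≤ k₂ - 2 ^ q0 P u₂ ∧
      ENNReal.ofReal (δ / 2) * volume (Qc P Δ u₂ j₂ k₂ θ E y) ≤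
        volume (Fb E (DD P u₁) W ∩ Qc P Δ u₂ j₂ k₂ θ E y) ∧
      ENNReal.ofReal (δ / 4) * volume (Qc P Δ u₂ j₂ k₂ θ E y) ≤
        volume ((Bad P Δ u₁ q u₂ j₂ k₂ θ E ∩ Qc P Δ u₂ j₂ k₂ θ E y) \
          Fb E (DD P u₁) (W + 2 ^ q1 P u₁))

/-- EM2 (about 100 lines), high points.  `z ∈ Bad` has an entry `z ∈ Tc u₁ j₁ k₁`, `z ∈ Lv u₁ k₁ q`; `B₁ = Bc P Δ u₁ j₁ k₁ θ E z ≥ k₁ - fl ≥ k₁ - 2^q1`.  `z ∈ Fo q = Fb E D (k₁ - 2^q)` and `z ∉ Fb E D (W + 2^q1)` give `W + 2^q1 < k₁ - 2^q < k₁`, so `W < k₁ - 2^q1 ≤ B₁ < B₁ + 1`.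
EF1: `vol(E ∩ DQ3 (B₁+1) z) ≥ (θ/32) 4^(B₁+1) > (θ/64) 4^(B₁+1)`.  If `z ∉ At E (θ/64) θ'` then (take `b' = B₁ + 1`, `b = W`) `vol(E ∩ DQ W z) ≥ θ' 4^W`.  Hypotheses: hEFB, hEF1. -/
def StEM2 : Prop :=
  ∀ (P : Par) (Δ : Dat) (u₁ q u₂ j₂ : ℕ) (k₂ W : ℤ) (θ θ' : ℝ) (E : Set Pl) (z : Pl), Sy P Δ →
    Ok P u₁ θ → BM E → q0 P u₁ ≤ q → q < q1 P u₁ → z ∈ Bad P Δ u₁ q u₂ j₂ k₂ θ E →
    z ∉ Fb E (DD P u₁) (W + 2 ^ q1 P u₁) → z ∉ At E (θ / 64) θ' →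
    ENNReal.ofReal (θ' * (4 : ℝ) ^ W) ≤ volume (E ∩ DQ W z)

/-- EM3 (about 200 lines), a fat cell.  Consider the dyadic squares `DQ W z`, `z ∈ Y'`.  Each of them meets `RQ s a B y` in measure at most `2^W 2^B` (Fubini, PT: `x 0` in an interval of length `2^W`, for fixed `x 0` `x 1` in an interval of length `2^B`), so there are at least `μ 2^(a+B)/2^(W+B) = μ 2^(a-W)` different ones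
(if infinitely many then the argument below is even simpler: `vol` infinite, impossible as `F` is bounded); they are disjoint, each has `F`-measure `≥ θ' 4^W`.  Let `z ∈ RQ s a B y`, `z' ∈ DQ W z`: `⌊z' 0/2^a⌋ = ⌊z 0/2^a⌋` (`W ≤ a`), `⌊pr s z/2^W⌋ = ⌊pr s y/2^W⌋` (`B ≤ W`),
`|pr s z' - pr s z| < 2·2^W`, so `⌊pr s z'/2^W⌋ = ⌊pr s y/2^W⌋ + i`, `|i| ≤ 2`, that is `z' ∈ RQ s a W (y + pt 0 (i 2^W))` (`pr s (y + pt 0 t) = pr s y + t`).  So the five cells have together `F`-measure `≥ μ 2^(a-W) θ' 4^W = μ θ' 2^(a+W)`, and one of them at least a fifth.  Hypotheses: hPT, hLGR, hEQ. -/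
def StEM3 : Prop :=
  ∀ (s : ℝ) (a B W : ℤ) (F Y' : Set Pl) (θ' μ : ℝ) (y : Pl), |s| ≤ 1 → BM F → B ≤ W → W ≤ a → 0 < θ' →
    0 < μ → Y' ⊆ RQ s a B y → (∀ z ∈ Y', ENNReal.ofReal (θ' * (4 : ℝ) ^ W) ≤ volume (F ∩ DQ W z)) →
    ENNReal.ofReal (μ * (2 : ℝ) ^ (a + B)) ≤ volume Y' →
    ∃ i : ℤ, |i| ≤ 2 ∧ Rich F s a W (θ' * μ / 5) (y + pt 0 (i * (2 : ℝ) ^ W))

/-- EM4 (about 80 lines), cells rich in a subset.  `F = Fo P u k (q0 u) E = Fb E DD b`, `E' ⊆ E`: `F ∩ E' ⊆ Fb E' DD b` (EFB).  `Q = Qc P Δ u j k θ E y = RQ s (k-u) B y` with `B ∈ Wc .. y`, so `k - fl ≤ B ≤ k - 2^q0` and `Rich (Fb E' DD b) s (k-u) B μ z` for all `z ∈ Q` (`vol Q = 2^(k-u+B)`, `Q` is the cell of `z`).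
Hypotheses: hLGR, hEFB, hEVF. -/
def StEM4 : Prop :=
  ∀ (P : Par) (Δ : Dat) (u j : ℕ) (k : ℤ) (θ μ : ℝ) (E E' : Set Pl) (y : Pl), BM E → 0 < θ → 0 < μ →
    E' ⊆ E → y ∈ Vc P Δ u j k θ E →
    ENNReal.ofReal μ * volume (Qc P Δ u j k θ E y) ≤
      volume (E' ∩ Fo P u k (q0 P u) E ∩ Qc P Δ u j k θ E y) →
    Qc P Δ u j k θ E y ⊆ Vc P Δ u j k μ E'

/-- the cells of `V'` which have a rich fat cell of width `2^W` nearby, and many points which are low for `W` -/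
def Cs (P : Par) (Δ : Dat) (u₁ u₂ j₂ : ℕ) (k₂ : ℤ) (θ θ'' μ : ℝ) (E V' : Set Pl) : Set Pl :=
  {y | y ∈ V' ∧ ∃ (W i : ℤ), Bc P Δ u₂ j₂ k₂ θ E y ≤ W ∧ W ≤ k₂ - 2 ^ q0 P u₂ ∧ |i| ≤ 2 ∧
    Rich (Fo P u₂ k₂ (q0 P u₂) E) (Δ.sl u₂ j₂) (k₂ - (u₂ : ℤ)) W θ'' (y + pt 0 (i * (2 : ℝ) ^ W)) ∧
    ENNReal.ofReal μ * volume (Qc P Δ u₂ j₂ k₂ θ E y) ≤
      volume (Fb E (DD P u₁) W ∩ Qc P Δ u₂ j₂ k₂ θ E y)}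

/-- EM5 (about 250 lines), rarity.  `s = sl u₂ j₂`, `a = k₂ - u₂`, `D = DD P u₁`, `V'' = Vc P Δ u₂ j₂ k₂ θ'' E`, `B'' = Bc .. θ'' E`.  Let `y ∈ Cs`, `y' = y + pt 0 (i 2^W)`: `W ∈ Wc θ'' y'` (`W ≥ Bc θ y ≥ k₂ - fl`), so `y' ∈ V''`, `B'' y' ≥ W`, and `y 0 = y' 0`, `|pr s y - pr s y'| ≤ 2·2^W ≤ 2·2^(B'' y')`; so
`Q = Qc θ y` (width `2^(Bc y) ≤ 2^W`) is contained in `C⁺ := {x | ⌊x 0/2^a⌋ = ⌊y' 0/2^a⌋, |pr s x - pr s y'| ≤ 3·2^(B'' y')}`.  Fix a cell `C = Qc θ'' y'` of `V''`, `W* = B'' y'`, and let `S_C ⊆ V'` be the union of the cells `Q` of `Cs` obtained from points `y'` of this cell `C` (then `Q ⊆ C⁺⁺ = {.. |pr s x - pr s y'| ≤ 4·2^W*}`).  These `Q` are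
disjoint, `μ vol Q ≤ vol(Fb E D W ∩ Q) ≤ vol(Fb E D W* ∩ Q)`, so (ECS) `μ vol(S_C) ≤ vol(Fb E D W* ∩ C⁺⁺) ≤ 30 D 2^(a+W*) = 30 D vol C`: `C⁺⁺` is covered by at most `30·2^(a-W*)` squares `DQ W* ·` (`W* ≤ a`: `2^(a-W*)` columns, at most `(8+1)+2 ≤ 11` rows), each of measure `≤ D 4^W*` for `Fb E D W*` (EFB).
`Cs = ⋃_C S_C` (`Cs` is a union of cells: the conditions hold for `z ∈ Qc y` with the same `W` and, as `⌊pr s z/2^W⌋ = ⌊pr s y/2^W⌋`, the same `i`), sum over the countably many cells `C` of `V''`, which are disjoint: `μ vol(Cs) ≤ 30 D vol V''`.  Hypotheses: hPT, hLGR, hEQ, hEFB, hEVF, hECS. -/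
def StEM5 : Prop :=
  ∀ (P : Par) (Δ : Dat) (u₁ u₂ j₂ : ℕ) (k₂ : ℤ) (θ θ'' μ : ℝ) (E V' : Set Pl), Sy P Δ → 1 ≤ u₂ →
    u₂ ≤ 2 ^ q0 P u₂ → j₂ < 2 ^ u₂ → BM E → 0 < θ → 0 < θ'' → 0 < μ → Sub P Δ u₂ j₂ k₂ θ E V' →
    Sub P Δ u₂ j₂ k₂ θ E (Cs P Δ u₁ u₂ j₂ k₂ θ θ'' μ E V') ∧
    volume (Cs P Δ u₁ u₂ j₂ k₂ θ θ'' μ E V') ≤
      ENNReal.ofReal (30 * DD P u₁ / μ) * volume (Vc P Δ u₂ j₂ k₂ θ'' E)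

/-- EPB (about 200 lines), the pair bound for `u₁ < u₂`.  ECS with `Y = univ` on the three parts of `V'`: (i) cells with `vol(Bad ∩ Q) ≤ δ vol Q`; total `≤ δ vol V'`.  For the other cells EM1 gives `W`; `H = (Bad ∩ Q) \ Fb E D (W + 2^q1)`, `vol H ≥ (δ/4) vol Q`.  (ii) `vol(H ∩ At) ≥ (δ/8) vol Q` with `At = At E (θ/64) θ'`: EM4 with `μ = δ/8`
(`H ⊆ Tc ⊆ Fo`): `Q ⊆ Vc .. (δ/8) At`.  (iii) otherwise `Y' = H \ At` has measure `≥ (δ/8) vol Q` (`EME`), and by EM2 `vol(E ∩ DQ W z) ≥ θ' 4^W` on `Y'`; `E ∩ DQ W z ⊆ F := Fo P u₂ k₂ (q0 u₂) E` as `z ∈ F`, `W ≤ k₂ - 2^q0` (EFB).  EM3 for `F` (`W ≤ k₂ - 2^q0 ≤ k₂ - u₂`, `μ = δ/8`): `Rich F .. W (θ' δ/40) (y + pt 0 (i 2^W))`,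
and EM1's third property: `y ∈ Cs` with `θ'' = θ' δ/40`, `μ = δ/2`; EM5.  Hypotheses: hEFB, hEVF, hECS, hEME, hEM1, hEM2, hEM3, hEM4, hEM5. -/
def StEPB : Prop :=
  ∀ (P : Par) (Δ : Dat) (u₁ q u₂ j₂ : ℕ) (k₂ : ℤ) (θ θ' δ : ℝ) (E V' : Set Pl), Sy P Δ → Ok P u₁ θ →
    Ok P u₂ θ → u₁ < u₂ → q0 P u₁ ≤ q → q < q1 P u₁ → j₂ < 2 ^ u₂ → BM E → 0 < δ → 0 < θ' →
    (2 ^ q1 P u₁ / 2 ^ (q - 4) + 19) * cq P u₁ q θ ≤ δ / 4 → Sub P Δ u₂ j₂ k₂ θ E V' →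
    volume (Bad P Δ u₁ q u₂ j₂ k₂ θ E ∩ V') ≤ ENNReal.ofReal δ * volume V' +
      volume (Vc P Δ u₂ j₂ k₂ (δ / 8) (At E (θ / 64) θ')) +
      ENNReal.ofReal (60 * DD P u₁ / δ) * volume (Vc P Δ u₂ j₂ k₂ (θ' * δ / 40) E)

end Pool.Agent.Helper68.EP
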