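import Pool.Agent.Helper68.EP.St3

/-!
# Project EP (MP_cb927e_an): interface statements, part 4 (counting at a point, the theorem of part Z)

`g = P.g = (s-1)/64`, so `ε ≤ g`, `2^u DD P u = 2^(-64 g u)`, `g < 1/64`.
-/

set_option autoImplicit false

open MeasureTheory Set Filter Topology
open scoped ENNReal RealInnerProductSpace

namespace Pool.Agent.Helper68.EP

open Pool.Agent.Helper68.LM (Pl BB Bd Av HL ft fm DQ)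
open Pool.Agent.Helper20.RG
open Pool.Agent.Helper20.RL (RQ Rich BM Fml)

/-- the weight `2^(-pu)` -/
noncomputable def wt (P : Par) (u : ℕ) : ℝ≥0∞ := ENNReal.ofReal ((2 : ℝ) ^ (-(P.p * u)))

/-- weighted measure of all rich cells of class `u` -/
noncomputable def SVu (P : Par) (Δ : Dat) (u : ℕ) (θ : ℝ) (E : Set Pl) : ℝ≥0∞ :=
  wt P u * ∑ j ∈ Finset.range (2 ^ u), ∑' k : ℤ, volume (Vc P Δ u j k θ E)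

/-- the same for `VM` -/
noncomputable def SMu (P : Par) (Δ : Dat) (u : ℕ) (θ M : ℝ) (E : Set Pl) : ℝ≥0∞ :=
  wt P u * ∑ j ∈ Finset.range (2 ^ u), ∑' k : ℤ, volume (VM P Δ u j k θ M E)

/-- weighted measure of the bad points of the pair of classes `u₁`, `u` -/
noncomputable def SBu (P : Par) (Δ : Dat) (u₁ u : ℕ) (θ M : ℝ) (E : Set Pl) : ℝ≥0∞ :=
  wt P u * ∑ j ∈ Finset.range (2 ^ u), ∑' k : ℤ, ∑ q ∈ Finset.Ico (q0 P u₁) (q1 P u₁),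
    volume (Bad P Δ u₁ q u j k θ E ∩ VM P Δ u j k θ M E)

/-- the good points -/
def Gd (P : Par) (Δ : Dat) (U₀ U₁ u j : ℕ) (k : ℤ) (θ M : ℝ) (E : Set Pl) : Set Pl :=
  {z | z ∈ Tc P Δ u j k θ E ∧ z ∈ Cn P Δ u j k M E ∧ ∀ u₁ q : ℕ, U₀ ≤ u₁ → u₁ ≤ U₁ →
    q0 P u₁ ≤ q → q < q1 P u₁ → z ∉ Bad P Δ u₁ q u j k θ E}

/-- the bound for the number of good entries of class `u` and age `2^q` near the direction `s` -/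
noncomputable def tq (Δ : Dat) (u q : ℕ) (M s : ℝ) : ℝ :=
  if max 1 M ≤ (2 : ℝ) ^ u * Δ.ell s (2 ^ (q - 3) - 1) then
    2 ^ q * (2 * ((2 : ℝ) ^ u * Δ.ell s (2 ^ (q - 3) - 1))) else 0

/-- EV0 (about 80 lines), `M = 0`.  Let `y ∈ Vc`, `Q = Qc y`; `Sub .. Q` (EVF), so by ETY (first part, `V' = Q`) and `vol Q ≤ (1/θ) vol(Fo ∩ Q)`: `vol((Fo ∩ Q) \ Tc) ≤ ¼ vol(Fo ∩ Q)`.  By EF1 (last clause) `Tc ⊆ Cn P Δ u j k 0 E` (`0 ≤ 2^u ell`), so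
`vol(Fo ∩ Q) ≤ vol(Fo ∩ Cn ∩ Q) + ¼ vol(Fo ∩ Q)`, finite.  Hypotheses: hEVF, hETY, hEF1, hEFB. -/
def StEV0 : Prop :=
  ∀ (P : Par) (Δ : Dat) (u j : ℕ) (k : ℤ) (θ : ℝ) (E : Set Pl), Sy P Δ → Ok P u θ → j < 2 ^ u → BM E →
    VM P Δ u j k θ 0 E = Vc P Δ u j k θ E

/-- EZC (about 300 lines), the good entries at a point.  Let `z` be given.  If there is no `(u,j,k)` (`u ∈ [U₀,U₁]`, `j < 2^u`) with `z ∈ Gd` take `s = 0`.  Otherwise the `k` with `z ∈ Gd u j k` for some `u`, `j` are bounded above: EF1: `B + 1 ≥ k - 2^q1(u) + 1` and `vol(E ∩ DQ3 (B+1) z) ≥ (θ/32) 4^(B+1)`, so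
`(θ/32) 4^(B+1) ≤ vol E < ∞`.  Let `(u*,j*,k*)` be one with maximal `k*`, `s = sl u* j*`.  Now let `z ∈ Gd u j k`, `u ∈ [U₀,U₁]`, `j < 2^u`, and let `q ∈ [q0 u, q1 u)` be the level, `z ∈ Lv u k q` (EF1; it is unique: `Fo` is decreasing in `q`).  `k ≤ k*`, so `|sl u j - s| ≤ 2^(-2^(q-3))`, since otherwise
`z ∈ Bad u q u* j* k*`.  As `z ∈ Cn`: `M ≤ 2^u ell (sl u j) (2^(q-3))` (`q ≥ 4`, level unique).  EF1: `2^q < fl u j`, so `2^(q-3) + u + 1 ≤ fl` (`64 u ≤ 2^q0 ≤ 2^q`, `q ≥ 5`) and `act`: `1 ≤ 2^u ell (sl u j) (2^(q-3))`.  `shift` (`i + 1 = 2^(q-3)`):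
`ell (sl u j) (2^(q-3)) ≤ ell s (2^(q-3) - 1) =: x`.  So `max 1 M ≤ 2^u x`.  The number of these `j` is at most `1 + 2^u ell s (2^(q-3)) ≤ 1 + 2^u x ≤ 2·2^u x` (`sep`, `mono`).  For given `u`, `j`, `q` the `k` with `z ∈ Lv u k q`: `k - 2^q ≥ β`, `k - 2^(q+1) < β`, `β` the least `b` with
`z ∈ Fb E (DD P u) b` (it exists as `z ∈ Fb (k - 2^q)`, `z ∉ Fb (k - 2^(q+1))`): `2^q` values.  So `∑_j ∑'_k 1[z ∈ Gd] ≤ ∑_q tq`.  Hypotheses: hEFB, hEF1. -/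
def StEZC : Prop :=
  ∀ (P : Par) (Δ : Dat) (U₀ U₁ : ℕ) (θ M : ℝ) (E : Set Pl) (z : Pl), Sy P Δ →
    (∀ u : ℕ, U₀ ≤ u → u ≤ U₁ → Ok P u θ) → BM E →
    ∃ s : ℝ, ∀ u ∈ Finset.Icc U₀ U₁,
      ∑ j ∈ Finset.range (2 ^ u), ∑' k : ℤ, (Gd P Δ U₀ U₁ u j k θ M E).indicator (fun _ => (1 : ℝ≥0∞)) z ≤
        ∑ q ∈ Finset.Ico (q0 P u) (q1 P u), ENNReal.ofReal (tq Δ u q M s)

/-- EZK (about 150 lines), the numbers.  `M₁ = max 1 M`, `x_q = ell s (2^(q-3) - 1) ∈ [0,1]`.  Exchange the sums: for `q ≥ 5` the sum over the `u` with `2^u x_q ≥ M₁` (so `x_q > 0`) of `2^(-pu) 2^q 2·2^u x_q` is `2^(q+1) x_q ∑ 2^(-(p-1)u) ≤ C 2^(q+1) x_q (M₁/x_q)^(-(p-1)) = C 2^(q+1) x_q^p M₁^(1-p)`,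
`C = 1/(1 - 2^(-(p-1)))`.  `mono`: `x_q ≤ ell s i` for `2^(q-4) ≤ i ≤ 2^(q-3) - 1` (`2^(q-4)` values), so `2^(q+1) x_q^p ≤ 32 ∑_i ell s i ^ p`, the blocks are disjoint, `i ≥ 1`: total `≤ 32 A C M₁^(1-p)` (`Sy.sum`).  Hypotheses: none. -/
def StEZK : Prop :=
  ∀ P : Par, ∃ C : ℝ, 1 ≤ C ∧ ∀ (Δ : Dat) (U₀ U₁ : ℕ) (M s : ℝ), Sy P Δ →
    (∀ u : ℕ, U₀ ≤ u → u ≤ U₁ → 5 ≤ q0 P u) →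
    ∑ u ∈ Finset.Icc U₀ U₁, (2 : ℝ) ^ (-(P.p * u)) * ∑ q ∈ Finset.Ico (q0 P u) (q1 P u), tq Δ u q M s ≤
      C * (max 1 M) ^ (1 - P.p)

/-- EAP (about 150 lines), a priori bound.  `vol(Vc) ≤ (2/θ) vol(Tc)` (ETY, `V' = Vc`).  For fixed `z ∈ E` let `κ` be the largest `b` with `(θ/32) 4^b ≤ vol(E ∩ DQ3 b z)` (if there is no such `b` then `z` is in no `Tc`; bounded above as `vol E < ∞`).  If `z ∈ Tc u j k`: EF1: `k - 2^q1 + 1 ≤ B + 1 ≤ κ`, and `κ < k - 2^q0`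
since `z ∈ Fo`, that is `vol(E ∩ DQ3 b z) ≤ DD 4^b < (θ/32) 4^b` for `b ≥ k - 2^q0`.  So `κ < k ≤ κ + 2^q1 - 1`, at most `2^q1` values of `k`: `∑'_k vol(Tc u j k) = ∫_E ∑'_k 1 ≤ 2^q1 vol E` (`lintegral_tsum`).  Hypotheses: hEFB, hEVF, hEME, hETY, hEF1. -/
def StEAP : Prop :=
  ∀ (P : Par) (Δ : Dat) (u j : ℕ) (θ : ℝ) (E : Set Pl), Sy P Δ → Ok P u θ → j < 2 ^ u → BM E →
    ∑' k : ℤ, volume (Vc P Δ u j k θ E) ≤ ENNReal.ofReal (2 / θ * 2 ^ q1 P u) * volume E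

/-- EZM (about 150 lines), the master inequality.  ETY (last clause): `vol(VM) ≤ (4/θ) vol(Tc ∩ Cn ∩ VM) ≤ (4/θ) (vol(Gd ∩ E) + ∑_{u₁ ∈ [U₀,U₁]} ∑_q vol(Bad u₁ q u j k ∩ VM))`.  `∑_u wt ∑_j ∑'_k vol(Gd ∩ E) = ∫_E ∑_u wt ∑_j ∑'_k 1_Gd` (measurable: EME) and EZC, EZK.
Hypotheses: hEME, hETY, hEZC, hEZK. -/
def StEZM : Prop :=
  ∀ P : Par, ∃ C : ℝ, 1 ≤ C ∧ ∀ (Δ : Dat) (U₀ U₁ : ℕ) (θ M : ℝ) (E : Set Pl), Sy P Δ →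
    (∀ u : ℕ, U₀ ≤ u → u ≤ U₁ → Ok P u θ) → BM E → 0 < θ →
    ∑ u ∈ Finset.Icc U₀ U₁, SMu P Δ u θ M E ≤
      ENNReal.ofReal (4 / θ) * (ENNReal.ofReal (C * (max 1 M) ^ (1 - P.p)) * volume E +
        ∑ u₁ ∈ Finset.Icc U₀ U₁, ∑ u ∈ Finset.Icc U₀ U₁, SBu P Δ u₁ u θ M E)

/-! ## Numbers -/

/-- EN1 (about 120 lines).  `q1 - q0 ≤ pu + 1 + c0 - ((p-ε)u - 1) = εu + c0 + 2`, so `et P u (q0 P u) ≥ 2^(-εu - c0 - 6)`.  `qq`: `⌈pu⌉ ≥ pu > (p-ε)u ≥ q0`.  `uq`: `2^q0 ≥ 2^((p-ε)u - 1)`, `p - ε > 1/2`.  `den`: `1024·2^(-su) ≤ 2^(-εu-c0-6) 2^(-8gu)` for large `u`, as `s > 1 > 9g ≥ ε + 8g` (`g < 1/64`).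
Hypotheses: none. -/
def StEN1 : Prop :=
  ∀ P : Par, ∃ u₀ : ℕ, 1 ≤ u₀ ∧ ∀ (u : ℕ) (θ : ℝ), u₀ ≤ u → (2 : ℝ) ^ (-(8 * P.g * u)) ≤ θ → θ ≤ 1 →
    Ok P u θ ∧ (q1 P u : ℝ) - q0 P u ≤ u

/-- EN2 (about 150 lines).  For `q0 ≤ q < q1`: `2^q1/2^(q-4) + 19 ≤ 2^(q1-q0+4) + 19 ≤ C 2^(gu)`, `cq = 1100·2^(u - su)/(η_q θ) ≤ C 2^(-64gu) 2^(gu)/θ` (EN1: `η_q ≥ η_q0 ≥ 2^(-gu-c0-6)`; `u - su = -64gu`), so the product is `≤ C 2^(-62gu)/θ`.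
First: at most `u` values of `q`, `(4/θ) u C 2^(-62gu)/θ ≤ 4 C u 2^(-46gu) ≤ 2^(-30gu)` for large `u`.  Second: `C 2^(-62gu)/θ ≤ C 2^(-61gu) ≤ 2^(-2gu)/4 ≤ (2^(-gu) θ)/4`.  Hypotheses: none. -/
def StEN2 : Prop :=
  ∀ P : Par, ∃ u₀ : ℕ, 1 ≤ u₀ ∧ ∀ (u : ℕ) (θ : ℝ), u₀ ≤ u → θ ≤ 1 →
    ((2 : ℝ) ^ (-(8 * P.g * u)) ≤ θ → 4 / θ * ∑ q ∈ Finset.Ico (q0 P u) (q1 P u),
      (2 ^ q1 P u / 2 ^ (q - 4) + 1) * cq P u q θ ≤ (2 : ℝ) ^ (-(30 * P.g * u))) ∧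
    ((2 : ℝ) ^ (-(P.g * u)) ≤ θ → ∀ q ∈ Finset.Ico (q0 P u) (q1 P u),
      (2 ^ q1 P u / 2 ^ (q - 4) + 19) * cq P u q θ ≤ (2 : ℝ) ^ (-(P.g * u)) * θ / 4)

/-! ## The theorem -/

/-- EZ1 (about 150 lines), a single class.  EZM with `U₀ = U₁ = u`, `M = 0`; `VM = Vc` (EV0), so `S := SMu P Δ u θ 0 E = SVu P Δ u θ E`, finite (EAP).  EPA (`u₂ = u₁ = u`, `V' = VM`, `Sub` by EVF): `(4/θ) SBu P Δ u u θ 0 E ≤ 2^(-30gu) S ≤ ½ S` (EN2, first part).  So `S ≤ (4/θ) C vol E + ½ S`.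
Hypotheses: hEVF, hEPA, hEV0, hEAP, hEZM, hEN1, hEN2. -/
def StEZ1 : Prop :=
  ∀ P : Par, ∃ (C : ℝ) (u₀ : ℕ), 1 ≤ C ∧ ∀ (Δ : Dat) (u : ℕ) (θ : ℝ) (E : Set Pl), Sy P Δ → u₀ ≤ u →
    (2 : ℝ) ^ (-(8 * P.g * u)) ≤ θ → θ ≤ 1 → BM E →
    SVu P Δ u θ E ≤ ENNReal.ofReal (C / θ) * volume E

/-- EBS (about 300 lines), the bad sums.  Fix `u₁ ∈ [U₀,U₁]`, `θ ≥ 2^(-g U₀) ≥ 2^(-g u₁)`, `S = ∑_u SMu`.  The `u ≤ u₁`: EPA with `V' = VM` and EN2 (first part): `(4/θ) ∑_{u ≤ u₁} SBu ≤ 2^(-30 g u₁) S`.  The `u > u₁`: EPB with `δ = 2^(-g u₁) θ`, `θ' = (θ/64) 2^(-3 g u₁)`, `V' = VM` (condition: EN2, second part); at most `u₁`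
values of `q` (EN1): `(4/θ) ∑_{u > u₁} SBu ≤ (4/θ) u₁ (δ S + ∑_{u > u₁} SVu (δ/8) At + (60 DD/δ) ∑_{u > u₁} SVu θ'' E)`, `θ'' = θ' δ/40 = θ² 2^(-4 g u₁)/2560`.  `δ/8 ≥ 2^(-2 g u₁)/8 ≥ 2^(-7 g u₁)`, `θ'' ≥ 2^(-6 g u₁)/2560 ≥ 2^(-7 g u₁)` for large `u₁`: by the hypothesis on `K`
the sums are at most `(8K/δ) vol At` and `(K/θ'') vol E`; `vol At ≤ C 2^(-3 g u₁) vol E` (EAT).  `(4/θ) u₁ (8K/δ) C 2^(-3 g u₁) = 32 C u₁ K 2^(-2 g u₁)/θ²`; `(4/θ) u₁ 60·2^(-s u₁) 2^(g u₁) θ^(-1) K·2560·2^(4 g u₁) θ^(-2) ≤ C u₁ K 2^(-(s - 8g) u₁)/θ ≤ C u₁ K 2^(-u₁/2)/θ`.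
`(4/θ) u₁ δ = 4 u₁ 2^(-g u₁)`.  Hypotheses: hEVF, hEPA, hEAT, hEPB, hEME, hEN1, hEN2. -/
def StEBS : Prop :=
  ∀ P : Par, ∃ (C : ℝ) (u₀ : ℕ), 1 ≤ C ∧ ∀ (Δ : Dat) (U₀ U₁ u₁ : ℕ) (θ M K : ℝ) (E : Set Pl), Sy P Δ →
    u₀ ≤ U₀ → U₀ ≤ u₁ → u₁ ≤ U₁ → (2 : ℝ) ^ (-(P.g * U₀)) ≤ θ → θ ≤ 1 → 0 ≤ K → BM E →
    (∀ (θ₁ : ℝ) (E₁ : Set Pl), (2 : ℝ) ^ (-(7 * P.g * u₁)) ≤ θ₁ → θ₁ ≤ 1 → BM E₁ →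
      ∑ u ∈ Finset.Ioc u₁ U₁, SVu P Δ u θ₁ E₁ ≤ ENNReal.ofReal (K / θ₁) * volume E₁) →
    ENNReal.ofReal (4 / θ) * ∑ u ∈ Finset.Icc U₀ U₁, SBu P Δ u₁ u θ M E ≤
      ENNReal.ofReal (5 * u₁ * (2 : ℝ) ^ (-(P.g * u₁))) * ∑ u ∈ Finset.Icc U₀ U₁, SMu P Δ u θ M E +
      ENNReal.ofReal (C * u₁ * K * ((2 : ℝ) ^ (-(2 * P.g * u₁)) / θ + (2 : ℝ) ^ (-((u₁ : ℝ) / 2))) / θ) *
        volume E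

/-- EZ2 (about 250 lines), all classes.  Induction on `U₁ - U₀` (all `θ`, `E`, `U₀`).  `S = ∑_{u ∈ [U₀,U₁]} SMu P Δ u θ 0 E = ∑ SVu` (EV0), finite (EAP).  For `u₁ ∈ [U₀,U₁]` and `θ₁ ≥ 2^(-7 g u₁)`: the `u ∈ (u₁, 8u₁)`: EZ1 (`θ₁ ≥ 2^(-8 g u)`): each `≤ (C₁/θ₁) vol E₁`; the `u ∈ [8u₁, U₁]`: `θ₁ ≥ 2^(-g 8u₁)`, induction
hypothesis (`U₁ - 8u₁ < U₁ - U₀`): `≤ (K₀/θ₁) vol E₁`.  So EBS applies with `K = K₀ + 8 C₁ u₁`.  EZM: `S ≤ (4/θ) C vol E + (∑_{u₁ ≥ u₀} 5 u₁ 2^(-g u₁)) S + ∑_{u₁ ≥ u₀} (C₂ u₁ (K₀ + 8 C₁ u₁) (2^(-2 g u₁)/θ + 2^(-u₁/2))/θ) vol E`, and `2^(-2 g u₁)/θ ≤ 2^(-g u₁)`.  For `u₀` large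
(depending only on `P`): `S ≤ (4C/θ) vol E + ½ S + (K₀ + 1)/(8θ) vol E`, so `S ≤ (8C + (K₀+1)/4)/θ vol E ≤ (K₀/θ) vol E` with `K₀ = 16 C + 1`.  Hypotheses: hEV0, hEAP, hEZM, hEN1, hEZ1, hEBS. -/
def StEZ2 : Prop :=
  ∀ P : Par, ∃ (C : ℝ) (u₀ : ℕ), 1 ≤ C ∧ ∀ (Δ : Dat) (U₀ U₁ : ℕ) (θ : ℝ) (E : Set Pl), Sy P Δ →
    u₀ ≤ U₀ → (2 : ℝ) ^ (-(P.g * U₀)) ≤ θ → θ ≤ 1 → BM E →
    ∑ u ∈ Finset.Icc U₀ U₁, SVu P Δ u θ E ≤ ENNReal.ofReal (C / θ) * volume E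

/-- EZ3 (about 200 lines), the theorem of part Z.  As EZ2 without induction: `K = C (1 + 8 u₁)` in EBS by EZ1 and EZ2; `S = ∑ SMu P Δ u θ M E ≤ ∑ SVu < ∞`.  EZM: `S ≤ (4/θ) C M₁^(1-p) vol E + ½ S + ∑_{u₁ ≥ U₀} C u₁² (2^(-2 g u₁)/θ + 2^(-u₁/2))/θ vol E`, `M₁ = max 1 M ≤ 1/θ`.  With `θ ≥ 2^(-g U₀/2)`:
`∑_{u₁ ≥ U₀} C u₁² (2^(-2 g u₁)/θ + 2^(-u₁/2)) ≤ C U₀² 2^(-(3/2) g U₀) ≤ 2^(-g U₀/2) ≤ θ ≤ θ^(p-1) ≤ M₁^(1-p)` for `U₀ ≥ u₀` (`g < 1/64`, `p - 1 ≤ 1`).  Hypotheses: hEVF, hEAP, hEZM, hEN1, hEZ1, hEBS, hEZ2. -/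
def StEZ3 : Prop :=
  ∀ P : Par, ∃ (C : ℝ) (u₀ : ℕ), 1 ≤ C ∧ ∀ (Δ : Dat) (U₀ U₁ : ℕ) (θ M : ℝ) (E : Set Pl), Sy P Δ →
    u₀ ≤ U₀ → (2 : ℝ) ^ (-(P.g / 2 * U₀)) ≤ θ → θ ≤ 1 → M ≤ 1 / θ → BM E →
    ∑ u ∈ Finset.Icc U₀ U₁, SMu P Δ u θ M E ≤
      ENNReal.ofReal (C / θ * (max 1 M) ^ (1 - P.p)) * volume E

end Pool.Agent.Helper68.EP
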