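import Pool.Agent.Helper68.EP.St4

/-!
# Project EP (MP_cb927e_an): interface statements, part 5 (part X: the hits at a point)

`ct u j` are the centres of the chords.  `E u` is the set which is tested with the class `u`.
-/

set_option autoImplicit false

open MeasureTheory Set Filter Topology
open scoped ENNReal RealInnerProductSpace

namespace Pool.Agent.Helper68.EP

open Pool.Agent.Helper68.LM (Pl BB Bd Av HL ft fm DQ)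
open Pool.Agent.Helper20.RG
open Pool.Agent.Helper20.RL (RQ Rich BM Fml Hit)

/-- the chord `(u,j)` of `x` at scale `k` passes near the cell of `y` -/
def Nr (P : Par) (Δ : Dat) (ct : ℕ → ℕ → Pl) (u j : ℕ) (k : ℤ) (θ : ℝ) (E : Set Pl) (x y : Pl) : Prop :=
  |(x - (2 : ℝ) ^ k • ct u j) 0 - y 0| ≤ 3 * (2 : ℝ) ^ (k - (u : ℤ)) ∧
    |pr (Δ.sl u j) (x - (2 : ℝ) ^ k • ct u j) - pr (Δ.sl u j) y| ≤ 2 * (2 : ℝ) ^ (Bc P Δ u j k θ E y)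

/-- the points `x` whose chord passes near a cell of the family `V'` -/
def Xv (P : Par) (Δ : Dat) (ct : ℕ → ℕ → Pl) (u j : ℕ) (k : ℤ) (θ : ℝ) (E V' : Set Pl) : Set Pl :=
  {x | ∃ y ∈ V', Nr P Δ ct u j k θ E x y}

/-- the cells of level `q`: at least half of the points have age `≥ 2^q`, less than half have age `≥ 2^(q+1)` -/
def Lc (P : Par) (Δ : Dat) (u j : ℕ) (k : ℤ) (θ : ℝ) (E : Set Pl) (q : ℕ) : Set Pl :=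
  {y | y ∈ Vc P Δ u j k θ E ∧
    volume (Fo P u k (q0 P u) E ∩ Qc P Δ u j k θ E y) ≤ 2 * volume (Fo P u k q E ∩ Qc P Δ u j k θ E y) ∧
    2 * volume (Fo P u k (q + 1) E ∩ Qc P Δ u j k θ E y) <
      volume (Fo P u k (q0 P u) E ∩ Qc P Δ u j k θ E y)}

/-- the hit `(u₁, j₁)` at `x` is bad: it meets a hit of a class `u₂ ≥ u₁` transversally, or it is too wide -/
def Bx (P : Par) (Δ : Dat) (ct : ℕ → ℕ → Pl) (U₁ u₁ j₁ : ℕ) (k : ℤ) (θ : ℝ) (E : ℕ → Set Pl) : Set Pl :=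
  {x | ∃ y₁ ∈ Vc P Δ u₁ j₁ k θ (E u₁), Nr P Δ ct u₁ j₁ k θ (E u₁) x y₁ ∧
    ∃ u₂ : ℕ, u₁ ≤ u₂ ∧ u₂ ≤ U₁ ∧ ∃ j₂ : ℕ, j₂ < 2 ^ u₂ ∧ ∃ q₂ : ℕ, q0 P u₂ ≤ q₂ ∧ q₂ < q1 P u₂ ∧
    ∃ y₂ ∈ Lc P Δ u₂ j₂ k θ (E u₂) q₂, Nr P Δ ct u₂ j₂ k θ (E u₂) x y₂ ∧
    (k - 2 ^ q₂ ≤ Bc P Δ u₁ j₁ k θ (E u₁) y₁ ∨
      (2 : ℝ) ^ (k - 2 ^ q₂) ≤ |Δ.sl u₁ j₁ - Δ.sl u₂ j₂| * (2 : ℝ) ^ (k - (u₂ : ℤ)))}

/-- the hits of the classes `U₀, .., U₁` at `x` -/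
def Ht (P : Par) (Δ : Dat) (ct : ℕ → ℕ → Pl) (U₀ U₁ : ℕ) (k : ℤ) (θ : ℝ) (E : ℕ → Set Pl) (x : Pl) :
    Set (ℕ × ℕ) :=
  {h | U₀ ≤ h.1 ∧ h.1 ≤ U₁ ∧ h.2 < 2 ^ h.1 ∧
    x ∈ Xv P Δ ct h.1 h.2 k θ (E h.1) (Vc P Δ h.1 h.2 k θ (E h.1))}

/-- XEN (about 150 lines).  `V'_w = {y ∈ V' | Bc y = w}` is a union of cells `RQ s (k-u) w y` (EVF).  The set of the `x` near a point of `V'_w` is the translate by `2^k ct` of the set of `LGE` (project RL) with `a = k - u`, `b = w`, `p = 3`, `q = 2`: measure `≤ 7·5 vol(V'_w)`.  Sum over `w`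
(the `V'_w` are disjoint and measurable).  Measurable: `Xv` is the union over `w` and over the countably many cells of `V'_w` (index: the two floors) of sets of the form `{x | |(x - v) 0 - y 0| ≤ .., ..}` with `y` running over a cell, which are measurable rectangles in the
coordinates `(x 0, pr s x)`.  Hypotheses: hPT, hLGR, hLGE, hEVF. -/
def StXEN : Prop :=
  ∀ (P : Par) (Δ : Dat) (ct : ℕ → ℕ → Pl) (u j : ℕ) (k : ℤ) (θ : ℝ) (E V' : Set Pl), BM E → 0 < θ →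
    Sub P Δ u j k θ E V' →
    MeasurableSet (Xv P Δ ct u j k θ E V') ∧ volume (Xv P Δ ct u j k θ E V') ≤ 35 * volume V'

/-- XW (about 120 lines), rich cells are narrow.  Cover the cell `RQ s a w y` (`b ≤ a`, `b ≤ w`) by dyadic squares of side `2^w'`, `w' = min w a`: `2^(a-w')` columns; in a column `x 1 = pr s x + s x 0` varies in an interval of length `2^w + 2^w' ≤ 2·2^w`, so at most `2·2^(w-w') + 2 ≤ 4·2^(w-w')` rows.  So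
`ϑ 2^(a+w) ≤ vol(F ∩ cell) ≤ 4·2^(a+w-2w') D 4^w' = 4 D 2^(a+w)`.  Hypotheses: hPT, hLGR. -/
def StXW : Prop :=
  ∀ (F : Set Pl) (s : ℝ) (a b w : ℤ) (D ϑ : ℝ) (y : Pl), |s| ≤ 1 → b ≤ a → b ≤ w → 0 ≤ D →
    (∀ (y' : Pl) (b' : ℤ), b ≤ b' → volume (F ∩ DQ b' y') ≤ ENNReal.ofReal (D * (4 : ℝ) ^ b')) →
    Rich F s a w ϑ y → ϑ ≤ 4 * D

/-- XL (about 150 lines), levels of cells.  First clause: let `q` be the largest element of `[q0, q1]` with `vol(Fo q0 ∩ Q) ≤ 2 vol(Fo q ∩ Q)` (`q0` is one).  `q < q1`: otherwise `vol(Fo q1 ∩ Q) ≥ ½ vol(Fo q0 ∩ Q) ≥ (θ/2) vol Q` and by ETG (`F' = Fo P u k (q1 P u) E`, `ϑ = θ/16`, `V = Q`, `Fml` from EVF) there is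
`z ∈ Fo q1 ∩ Q` such that `Fo q1` has density `≥ θ/16` in all cells `RQ s a' (Bc y) z`, `a' ≤ k - u`; with `a' = Bc y =: B` (`B ≤ k - 2^q0 ≤ k - u`): `vol(E ∩ DQ3 (B+1) z) ≥ (θ/64) 4^(B+1) > DD 4^(B+1)` (EQ, `Ok.den`), so `B + 1 < k - 2^q1` (`z ∈ Fo q1`), but `B ≥ k - fl ≥ k - 2^q1`.
Second clause: `Rich (Fo q) s (k-u) B (θ/2) y` (`vol(Fo q0 ∩ Q) ≥ θ vol Q`), and if `B ≥ b := k - 2^q` then XW (`b ≤ k - u`; density: EFB) gives `θ/2 ≤ 4 DD`, contradicting `Ok.den`.  Third: `Lc` is a union of cells.  Hypotheses: hEQ, hEFB, hEVF, hETG, hXW, hLGR. -/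
def StXL : Prop :=
  ∀ (P : Par) (Δ : Dat) (u j : ℕ) (k : ℤ) (θ : ℝ) (E : Set Pl), Sy P Δ → Ok P u θ → j < 2 ^ u → BM E →
    (∀ y ∈ Vc P Δ u j k θ E, ∃ q : ℕ, q0 P u ≤ q ∧ q < q1 P u ∧ y ∈ Lc P Δ u j k θ E q) ∧
    (∀ q : ℕ, q0 P u ≤ q → ∀ y ∈ Lc P Δ u j k θ E q,
      Rich (Fo P u k q E) (Δ.sl u j) (k - (u : ℤ)) (Bc P Δ u j k θ E y) (θ / 2) y ∧
      Bc P Δ u j k θ E y < k - 2 ^ q) ∧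
    ∀ q : ℕ, Sub P Δ u j k θ E (Lc P Δ u j k θ E q)

/-- XVM (about 80 lines), levels and `VM`.  `Q = Qc y`, `z ∈ (Fo q0 ∩ Q) \ Fo (q+1)`: let `q'` be the largest `q' ≤ q` with `z ∈ Fo q'` (`Fo` decreasing in `q`): `z ∈ Lv q'`, `q0 ≤ q' ≤ q`, and `ell s (2^(q'-3)) ≥ ell s (2^(q-3))` (`mono`), so `z ∈ Cn`.  The measure of these `z` is more than
`½ vol(Fo q0 ∩ Q)` (`Fo` measurable, finite measure).  Hypotheses: hEFB. -/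
def StXVM : Prop :=
  ∀ (P : Par) (Δ : Dat) (u j : ℕ) (k : ℤ) (θ M : ℝ) (E : Set Pl) (q : ℕ) (y : Pl), Sy P Δ → BM E →
    q0 P u ≤ q → q ≤ q1 P u → y ∈ Lc P Δ u j k θ E q →
    M ≤ (2 : ℝ) ^ u * Δ.ell (Δ.sl u j) (2 ^ (q - 3)) → y ∈ VM P Δ u j k θ M E

/-- XB1 (about 300 lines), transversal hits.  `a_i = k - u_i`, `a₂ ≤ a₁`, `b = k - 2^q₂ ≤ a₂`, `F₂ = Fo P u₂ k q₂ E₂ = Fb E₂ DD b`, `s_i = sl u_i j_i`.  Fix a cell `Q₁ = Qc y₁` of `V₁`, `B₁ = Bc y₁`, and suppose `b ≤ B₁` or `2^b ≤ |s₁ - s₂| 2^a₂`.  Let `x` be near a point of `Q₁` and near `y₂ ∈ Lc q₂`, `B₂ = Bc y₂ < b` (XL),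
`Rich F₂ s₂ a₂ B₂ (θ/2) y₂`.  With `x'' = x - 2^k ct u₂ j₂` there is an integer `|i| ≤ 3` such that `x''' = x'' + i 2^a₂ E(s₂)` satisfies `⌊x''' 0/2^a₂⌋ = ⌊y₂ 0/2^a₂⌋` (`|x'' 0 - y₂ 0| ≤ 3·2^a₂`), `pr s₂ x''' = pr s₂ x''`: `x''' ∈ Rs F₂ s₂ a₂ b (θ/2)`.  On the other hand `x` is in the set
`{|(x - 2^k ct u₁ j₁) 0 - y₁ 0| ≤ 4·2^a₁, |pr s₁ (x - ..) - pr s₁ y₁| ≤ 3·2^B₁}`, so `x'''` is in a translate of it, which is covered by `8·2^(a₁-a₂) + 1 ≤ 9·2^(a₁-a₂)` sets `{g ≤ x 0 ≤ g + 2^a₂, |pr s₁ x - c| ≤ 3·2^B₁}`.  ECR (`F = F₂`, `(s₁,s₂) ↦ (s₂,s₁)`, `a = a₂`, `D = DD P u₂`, `ϑ = θ/2`,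
`h = 3·2^B₁`): `≤ 1100·2·(DD/θ) 2^a₂ 3·2^B₁`.  Total `7·9·6600 (DD/θ) 2^(a₁+B₁) ≤ 10^6 (DD/θ) vol Q₁`.  Sum over the cells of `V₁` (only those which satisfy the condition).  Hypotheses: hPT, hLGR, hEFB, hEVF, hECR, hXL. -/
def StXB1 : Prop :=
  ∀ (P : Par) (Δ : Dat) (ct : ℕ → ℕ → Pl) (u₁ j₁ u₂ j₂ q₂ : ℕ) (k : ℤ) (θ : ℝ) (E₁ E₂ : Set Pl), Sy P Δ →
    Ok P u₁ θ → Ok P u₂ θ → u₁ ≤ u₂ → j₁ < 2 ^ u₁ → j₂ < 2 ^ u₂ → q0 P u₂ ≤ q₂ → q₂ < q1 P u₂ →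
    BM E₁ → BM E₂ →
    volume {x | ∃ y₁ ∈ Vc P Δ u₁ j₁ k θ E₁, Nr P Δ ct u₁ j₁ k θ E₁ x y₁ ∧
      ∃ y₂ ∈ Lc P Δ u₂ j₂ k θ E₂ q₂, Nr P Δ ct u₂ j₂ k θ E₂ x y₂ ∧
      (k - 2 ^ q₂ ≤ Bc P Δ u₁ j₁ k θ E₁ y₁ ∨
        (2 : ℝ) ^ (k - 2 ^ q₂) ≤ |Δ.sl u₁ j₁ - Δ.sl u₂ j₂| * (2 : ℝ) ^ (k - (u₂ : ℤ)))} ≤
      ENNReal.ofReal (10 ^ 6 * DD P u₂ / θ) * volume (Vc P Δ u₁ j₁ k θ E₁)

/-- XB2 (about 120 lines).  Sum of XB1 over `u₂ ∈ [u₁,U₁]`, `j₂ < 2^u₂`, `q₂` (at most `u₂` values, EN1): `∑_{u₂ ≥ u₁} 2^u₂ u₂ 10^6 2^(-s u₂)/θ = (10^6/θ) ∑ u₂ 2^(-64 g u₂) ≤ C u₁ 2^(-64 g u₁) 2^(g u₁/2) ≤ 2^(-g u₁)` for large `u₁` (`θ ≥ 2^(-g U₀/2) ≥ 2^(-g u₁/2)`).  Hypotheses: hEN1, hXB1. -/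
def StXB2 : Prop :=
  ∀ P : Par, ∃ u₀ : ℕ, 1 ≤ u₀ ∧ ∀ (Δ : Dat) (ct : ℕ → ℕ → Pl) (U₀ U₁ u₁ j₁ : ℕ) (k : ℤ) (θ : ℝ)
    (E : ℕ → Set Pl), Sy P Δ → u₀ ≤ U₀ → U₀ ≤ u₁ → u₁ ≤ U₁ → (2 : ℝ) ^ (-(P.g / 2 * U₀)) ≤ θ → θ ≤ 1 →
    j₁ < 2 ^ u₁ → (∀ u, BM (E u)) →
    volume (Bx P Δ ct U₁ u₁ j₁ k θ E) ≤
      ENNReal.ofReal ((2 : ℝ) ^ (-(P.g * u₁))) * volume (Vc P Δ u₁ j₁ k θ (E u₁))

/-- XGA (about 200 lines), good hits.  Let `x ∈ Xv (Vc ..)` for `(u₁,j₁)`, not in `Bx`, witness `y₁`, and let `x` be near `y₂ ∈ Lc u₂ j₂ q₂`, `u₁ ≤ u₂ ≤ U₁`.  Then `Bc y₁ < k - 2^q₂`, so `2^q₂ < k - Bc y₁ ≤ fl u₁ j₁` (EVF), and `|s₁ - s₂| < 2^(u₂ - 2^q₂)`.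
(b) `u₁ < u₂`: `act` with `i = 2^q₂ - u₁ - 1` (`64 u₂ ≤ 2^q₂`): `1 ≤ 2^u₁ ell s₁ i`; `2^q₂ - u₂ ≤ i`, so `ell s₁ (2^q₂ - u₂) ≥ 2^(-u₁)`; `shift`: `ell s₂ (2^q₂ - u₂ - 1) ≥ 2^(-u₁)`, and `2^(q₂-3) ≤ 2^q₂ - u₂ - 1`: `2^u₂ ell s₂ (2^(q₂-3)) ≥ 2^(u₂-u₁)`.
(a) Let `J` be a finite set of `j'` such that the hits `(u₂,j')` are good (`u₁ = u₂`): `|sl u₂ j' - s₂| ≤ 2^(-(2^q₂ - u₂))` for all of them, so `#J ≤ 1 + 2^u₂ ell s₂ (2^q₂ - u₂) ≤ 1 + 2^u₂ ell s₂ (2^(q₂-3))` (`sep`).  Hypotheses: hEVF. -/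
def StXGA : Prop :=
  ∀ (P : Par) (Δ : Dat) (ct : ℕ → ℕ → Pl) (U₁ u₂ j₂ q₂ : ℕ) (k : ℤ) (θ : ℝ) (E : ℕ → Set Pl)
    (x y₂ : Pl), Sy P Δ → Ok P u₂ θ → (∀ u, BM (E u)) → u₂ ≤ U₁ → j₂ < 2 ^ u₂ → q0 P u₂ ≤ q₂ →
    q₂ < q1 P u₂ → y₂ ∈ Lc P Δ u₂ j₂ k θ (E u₂) q₂ → Nr P Δ ct u₂ j₂ k θ (E u₂) x y₂ →
    (∀ u₁ j₁ : ℕ, 1 ≤ u₁ → u₁ < u₂ → j₁ < 2 ^ u₁ →
      x ∈ Xv P Δ ct u₁ j₁ k θ (E u₁) (Vc P Δ u₁ j₁ k θ (E u₁)) → x ∉ Bx P Δ ct U₁ u₁ j₁ k θ E →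
      (2 : ℝ) ^ ((u₂ : ℤ) - u₁) ≤ (2 : ℝ) ^ u₂ * Δ.ell (Δ.sl u₂ j₂) (2 ^ (q₂ - 3))) ∧
    ∀ J : Finset ℕ, (∀ j ∈ J, j < 2 ^ u₂ ∧
      x ∈ Xv P Δ ct u₂ j k θ (E u₂) (Vc P Δ u₂ j k θ (E u₂)) ∧ x ∉ Bx P Δ ct U₁ u₂ j k θ E) →
      (J.card : ℝ) - 1 ≤ (2 : ℝ) ^ u₂ * Δ.ell (Δ.sl u₂ j₂) (2 ^ (q₂ - 3))

/-- XC (about 120 lines), combinatorics.  `G` finite set of pairs `(u,j)`, `γ : ℕ × ℕ → ℝ`.  Let `u_*` be the least first coordinate.  Elements with `u ≥ u_* + L`: if `L ≥ 1` then `γ ≥ 2^(u - u_*) ≥ 2^L ≥ M`; if `L = 0`, `M ≤ 1`: for `u > u_*` the same, and for `u = u_*` the second hypothesis gives `γ ≥ #G_u - 1`.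
In general: an element with `γ < M` has `u < u_* + L` or `u = u_*`, and its class has fewer than `M + 1` elements; so there are at most `(L+1)(M+1)` such elements.  Hypotheses: none. -/
def StXC : Prop :=
  ∀ (G : Finset (ℕ × ℕ)) (γ : ℕ × ℕ → ℝ) (M n : ℝ) (L : ℕ), 0 ≤ M → M ≤ 2 ^ L →
    ((L : ℝ) + 1) * (M + 1) ≤ n / 4 → n / 2 ≤ (G.card : ℝ) →
    (∀ h ∈ G, ∀ h' ∈ G, h'.1 < h.1 → (2 : ℝ) ^ ((h.1 : ℤ) - h'.1) ≤ γ h) →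
    (∀ h ∈ G, ((G.filter (fun h' => h'.1 = h.1)).card : ℝ) - 1 ≤ γ h) →
    n / 4 ≤ ((G.filter (fun h => M ≤ γ h)).card : ℝ)

/-- XT (about 250 lines), many hits.  Let `x` have at least `n` hits.  (1) If more than `n/2` of them are bad (`x ∈ Bx`): the measure of the set of these `x` is at most `(2/n) ∑_{u,j} vol(Bx)`, XB2.  (2) Otherwise let `G` be the set of good hits (finite), `#G ≥ n/2`; for `h = (u,j) ∈ G` choose `y` near `x`, `y ∈ Vc`, and its level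
`q` (XL), `γ h = 2^u ell (sl u j) (2^(q-3))`.  If `M = 0`: all `h ∈ G` have `γ h ≥ M`.  If `M > 0`: XGA gives the hypotheses of XC, so at least `n/4` of the `h` have `γ h ≥ M`, hence `y ∈ VM` (XVM) and `x ∈ Xv .. (VM ..)`: measure at most `(4/n) ∑_{u,j} vol(Xv .. (VM ..)) ≤ (140/n) ∑ vol(VM)` (XEN; `VM` is `Sub`, EVF).
(Chebyshev for sums of indicators; for non measurable sets `Bx` use `toMeasurable`.)  Hypotheses: hEVF, hEN1, hXEN, hXL, hXVM, hXB2, hXGA, hXC. -/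
def StXT : Prop :=
  ∀ P : Par, ∃ u₀ : ℕ, 1 ≤ u₀ ∧ ∀ (Δ : Dat) (ct : ℕ → ℕ → Pl) (U₀ U₁ : ℕ) (k : ℤ) (θ n M : ℝ) (L : ℕ)
    (E : ℕ → Set Pl), Sy P Δ → u₀ ≤ U₀ → (2 : ℝ) ^ (-(P.g / 2 * U₀)) ≤ θ → θ ≤ 1 → 0 < n →
    (M = 0 ∨ (0 < M ∧ M ≤ 2 ^ L ∧ ((L : ℝ) + 1) * (M + 1) ≤ n / 4)) → (∀ u, BM (E u)) →
    volume {x | n ≤ ((Ht P Δ ct U₀ U₁ k θ E x).ncard : ℝ)} ≤
      ENNReal.ofReal (140 / n) * ∑ u ∈ Finset.Icc U₀ U₁, ∑ j ∈ Finset.range (2 ^ u),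
        (volume (VM P Δ u j k θ M (E u)) +
          ENNReal.ofReal ((2 : ℝ) ^ (-(P.g * u))) * volume (Vc P Δ u j k θ (E u)))

/-- dyadic level sets of `f` -/
def Gf (f : Pl → ℝ) (l : ℤ) : Set Pl := {x | (2 : ℝ) ^ l ≤ f x ∧ f x < (2 : ℝ) ^ (l + 1)}

/-- XS (about 200 lines), summation over scales and levels.  `E u = Gf f (l + u)`.  XT, sum over `k`, multiply by `2^(pl)`, sum over `l`; substitute `m = l + u` (`2^(pl) = 2^(pm) 2^(-pu)`), all sums in `ℝ≥0∞`: `≤ (140/n) ∑_m 2^(pm) (∑_u SMu P Δ u θ M (Gf f m) + ∑_u 2^(-gu) SVu P Δ u θ (Gf f m))`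
`≤ (140/n) ∑_m 2^(pm) (C/θ) (M₁^(1-p) + 2^(-g U₀)) vol(Gf f m)` (EZ3, EZ2; `2^(-gu) ≤ 2^(-g U₀)`), and `∑_m 2^(pm) vol(Gf f m) ≤ ∫ f^p` (disjoint sets, `f ≥ 2^m` on `Gf f m`).  `BM (Gf f m)`: `f` is `BB`, `2^m > 0`.  Hypotheses: hEZ2, hEZ3, hXT. -/
def StXS : Prop :=
  ∀ P : Par, ∃ (C : ℝ) (u₀ : ℕ), 1 ≤ C ∧ 1 ≤ u₀ ∧ ∀ (Δ : Dat) (ct : ℕ → ℕ → Pl) (U₀ U₁ : ℕ) (θ n M : ℝ) (L : ℕ)
    (f : Pl → ℝ), Sy P Δ → u₀ ≤ U₀ → (2 : ℝ) ^ (-(P.g / 2 * U₀)) ≤ θ → θ ≤ 1 → 0 < n → M ≤ 1 / θ →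
    (M = 0 ∨ (0 < M ∧ M ≤ 2 ^ L ∧ ((L : ℝ) + 1) * (M + 1) ≤ n / 4)) → BB f →
    ∑' l : ℤ, ENNReal.ofReal ((2 : ℝ) ^ (P.p * l)) * ∑' k : ℤ,
      volume {x | n ≤ ((Ht P Δ ct U₀ U₁ k θ (fun u => Gf f (l + (u : ℤ))) x).ncard : ℝ)} ≤
      ENNReal.ofReal (C / (n * θ) * ((max 1 M) ^ (1 - P.p) + (2 : ℝ) ^ (-(P.g * U₀)))) *
        ∫⁻ x, ENNReal.ofReal (f x) ^ P.p

/-- the value of the chord operator on the old points, if it is at least `2^(-e₂ u)/2` -/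
noncomputable def tt (P : Par) (Δ : Dat) (ct : ℕ → ℕ → Pl) (e₂ : ℝ) (u j : ℕ) (k : ℤ) (E : Set Pl) (x : Pl) : ℝ :=
  if (2 : ℝ) ^ (-(e₂ * u)) / 2 ≤ Y (Δ.sl u j) (ct u j) (Δ.fl u j) (1 / (2 : ℝ) ^ u) k
      ((Fo P u k (q0 P u) E).indicator 1) x then
    Y (Δ.sl u j) (ct u j) (Δ.fl u j) (1 / (2 : ℝ) ^ u) k ((Fo P u k (q0 P u) E).indicator 1) x else 0

/-- XP (about 120 lines), pigeonhole.  `t h ∈ [0,1]`.  If `#{h : 2^(-i-1) < t h ≤ 2^(-i)} < c₂ 2^((1-e₁)i)` for all `i` then `∑ t < ∑_i 2^(-i) c₂ 2^((1-e₁)i) = c₂/(1 - 2^(-e₁)) = c` with `c₂ = c (1 - 2^(-e₁))` (finitely many `i` occur; strict since the sum is positive).  Hypotheses: none. -/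
def StXP : Prop :=
  ∀ (S : Finset (ℕ × ℕ)) (t : ℕ × ℕ → ℝ) (c e₁ : ℝ), 0 < c → 0 < e₁ → (∀ h ∈ S, 0 ≤ t h ∧ t h ≤ 1) →
    c ≤ ∑ h ∈ S, t h →
    ∃ i : ℕ, c * (1 - (2 : ℝ) ^ (-e₁)) * (2 : ℝ) ^ ((1 - e₁) * i) ≤
      ((S.filter (fun h => (2 : ℝ) ^ (-((i : ℤ) + 1)) < t h ∧ t h ≤ (2 : ℝ) ^ (-(i : ℤ)))).card : ℝ)

/-- XH (about 100 lines), from chords to hits.  LGY (project RL; `F = Fo P u k (q0 P u) E`, `m = fl u j`, `η = 2^(-i-1)`): there is `y` with `Rich F s (k-u) (k-m) (2^(-i-1)/18) y`, hence also with threshold `θ = 2^(-i-6)`, and the two inequalities of `Hit`.  XW (`b = k - 2^q0 ≤ k - u`, EFB): if `k - m ≥ b` then `θ ≤ 4 DD`, contradicting `Ok.den`;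
so `k - m < k - 2^q0`, `k - m ∈ Wc θ y`, `y ∈ Vc`, `k - m ≤ Bc y` (EVF): `x ∈ Xv`.  Hypotheses: hLGY, hEFB, hEVF, hXW. -/
def StXH : Prop :=
  ∀ (P : Par) (Δ : Dat) (ct : ℕ → ℕ → Pl) (u j i : ℕ) (k : ℤ) (E : Set Pl) (x : Pl), Sy P Δ →
    Ok P u ((2 : ℝ) ^ (-((i : ℤ) + 6))) → j < 2 ^ u → BM E →
    (2 : ℝ) ^ (-((i : ℤ) + 1)) ≤ Y (Δ.sl u j) (ct u j) (Δ.fl u j) (1 / (2 : ℝ) ^ u) k
      ((Fo P u k (q0 P u) E).indicator 1) x →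
    x ∈ Xv P Δ ct u j k ((2 : ℝ) ^ (-((i : ℤ) + 6))) E
      (Vc P Δ u j k ((2 : ℝ) ^ (-((i : ℤ) + 6))) E)

/-- XHI (about 300 lines), the high part.  `e₂ = g/8`, `e₁ = (p-1)/32`, `c₂ = c (1 - 2^(-e₁))`, `n_i = c₂ 2^((1-e₁)i)`, `θ_i = 2^(-i-6)`.  By XP (with `e₁/2` in place of `e₁` or directly) the set is contained in `⋃_i {x | n_i ≤ #{(u,j) : 2^(-i-1) < tt ≤ 2^(-i)}}`.  For such `(u,j)`: `2^(-i) ≥ 2^(-e₂ u)/2`, so `u ≥ (i-1)/e₂ = 8(i-1)/g`, hence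
`θ_i ≥ 2^(-g u/2)` for `u ≥ u₀` (`i + 6 ≤ g u/8 + 7 ≤ g u/2`), so all `u ≥ U_i := max(U₀, ⌈2(i+6)/g⌉)` (for `i ≤ g U₀/2 - 6` this is `U₀`), and by XH they are hits: `n_i ≤ #Ht P Δ ct U_i U₁ k θ_i E x` (`Ok` by EN1).  XS with `U_i`, `θ_i`, `n_i`, `M_i`, `L_i`: if `n_i` is small (`i ≤ i₀(c, p)`) `M_i = 0`; otherwise
`M_i = n_i^(1/2)` (`≤ 1/θ_i`; for `c ≤ 1`), `L_i = ⌈log₂ M_i⌉`, `(L+1)(M+1) ≤ n/4` for large `n`.  `∑_i C/(n_i θ_i) (M_i^(1-p) + 2^(-g U_i)) ≤ ∑_i C 64/(c₂ 2^(-e₁ i)) (2^(-(1-e₁)(p-1)i/2) c₂^(-1) + 2^(-2i)) < ∞` as `e₁ < (1-e₁)(p-1)/2`, `g U_i ≥ 2i`.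
Hypotheses: hYB, hEN1, hXS, hXP, hXH. -/
def StXHI : Prop :=
  ∀ (P : Par) (c : ℝ), 0 < c → c ≤ 1 → ∃ (C : ℝ) (u₀ : ℕ), 1 ≤ C ∧ 1 ≤ u₀ ∧ ∀ (Δ : Dat) (ct : ℕ → ℕ → Pl)
    (U₀ U₁ : ℕ) (f : Pl → ℝ), Sy P Δ → u₀ ≤ U₀ → BB f →
    ∑' l : ℤ, ENNReal.ofReal ((2 : ℝ) ^ (P.p * l)) * ∑' k : ℤ,
      volume {x | c ≤ ∑ u ∈ Finset.Icc U₀ U₁, ∑ j ∈ Finset.range (2 ^ u),
        tt P Δ ct (P.g / 8) u j k (Gf f (l + (u : ℤ))) x} ≤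
      ENNReal.ofReal C * ∫⁻ x, ENNReal.ofReal (f x) ^ P.p

end Pool.Agent.Helper68.EP
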